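import Mathlib

/-!
# Stability of the second kind for bosons with attractive pair and repulsive three-body forces

For every trap, the set of exponents `β` in `(0, 1]` for which stability of the second kind holds
for every admissible pair `(V, W)` is exactly the open interval `(0, 1/3)`.

Stability for `β < 1/3`: after the scaling `x ↦ N ^ (1/2) x` three particles in a cube of side
`2 ^ J L` have energy at least `c 64 ^ (-J)` (an induction over dyadic scales), which is summed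
over the cells of a multiscale decomposition of space and compared with the number of close pairs.
Instability for `β ≥ 1/3`: the three-body interaction may vanish near the origin, so all particles
can be put in a ball of radius `N ^ (-max (β, 1/2)) / 2`.
-/

open MeasureTheory Filter Topology Set
open scoped ContDiff NNReal ENNReal

namespace Pool.Agent.Results.MP_a755a8_mp.StabilityThreshold

noncomputable section

/-- physical space -/
abbrev E3 := EuclideanSpace ℝ (Fin 3)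

/-- Admissible pair of interactions: `V` is the repulsive three-body interaction and `W` the
attractive pair interaction. -/
structure AdmissiblePair (V : E3 → E3 → ℝ) (W : E3 → ℝ) : Prop where
  V_meas : Measurable (fun p : E3 × E3 => V p.1 p.2)
  V_nonneg : ∀ x y, 0 ≤ V x y
  V_bdd : ∃ M, ∀ x y, V x y ≤ M
  V_supp : HasCompactSupport (fun p : E3 × E3 => V p.1 p.2)
  V_ne : ¬ (fun p : E3 × E3 => V p.1 p.2) =ᵐ[volume] 0
  V_symm : ∀ x y, V x y = V y x
  V_symm1 : ∀ x y z, V (x - y) (x - z) = V (y - x) (y - z)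
  V_symm2 : ∀ x y z, V (y - x) (y - z) = V (z - y) (z - x)
  W_meas : Measurable W
  W_nonpos : ∀ x, W x ≤ 0
  W_even : ∀ x, W (-x) = W x
  W_bdd : ∃ M, ∀ x, -M ≤ W x
  W_supp : HasCompactSupport W

/-- Trapping potential: locally bounded, bounded below by `c |x| ^ α` with `c, α > 0`. -/
structure IsTrap (Vext : E3 → ℝ) : Prop where
  meas : Measurable Vext
  locBdd : ∀ r : ℝ, ∃ M, ∀ x, ‖x‖ ≤ r → |Vext x| ≤ M
  growth : ∃ c > 0, ∃ α > 0, ∀ x, c * ‖x‖ ^ (α : ℝ) ≤ Vext x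

/-- The total potential of `N` particles at the positions `x`: trap, pair interactions
`N ^ (3 β - 1) W (N ^ β (x_i - x_j))` over `i < j`, and three-body interactions
`N V (N ^ (1/2) (x_i - x_j), N ^ (1/2) (x_i - x_k))` over `i < j < k`. -/
def potential (Vext : E3 → ℝ) (V : E3 → E3 → ℝ) (W : E3 → ℝ) (β : ℝ) (N : ℕ) (x : Fin N → E3) : ℝ :=
  ∑ i, Vext (x i)
  + ∑ i, ∑ j, (if i < j then (N : ℝ) ^ (3 * β - 1) * W ((N : ℝ) ^ β • (x i - x j)) else 0)
  + ∑ i, ∑ j, ∑ k, (if i < j ∧ j < k then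
      (N : ℝ) * V ((N : ℝ) ^ (1 / 2 : ℝ) • (x i - x j)) ((N : ℝ) ^ (1 / 2 : ℝ) • (x i - x k)) else 0)

/-- The squared length of the gradient of `Ψ` at `x`, all `3 N` partial derivatives. -/
def gradSq {N : ℕ} (Ψ : (Fin N → E3) → ℂ) (x : Fin N → E3) : ℝ :=
  ∑ i : Fin N, ∑ k : Fin 3, ‖fderiv ℝ Ψ x (Pi.single i (EuclideanSpace.single k (1 : ℝ)))‖ ^ 2

/-- The quadratic form of the `N`-body Hamiltonian. -/
def energy (Vext : E3 → ℝ) (V : E3 → E3 → ℝ) (W : E3 → ℝ) (β : ℝ) (N : ℕ)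
    (Ψ : (Fin N → E3) → ℂ) : ℝ :=
  ∫ x, (gradSq Ψ x + potential Vext V W β N x * ‖Ψ x‖ ^ 2)

/-- Stability of the second kind: there is `C > 0` with `H_N ≥ - C N` for all `N ≥ 1`, as
quadratic forms on the permutation symmetric smooth compactly supported functions. -/
def Stable (Vext : E3 → ℝ) (V : E3 → E3 → ℝ) (W : E3 → ℝ) (β : ℝ) : Prop :=
  ∃ C : ℝ, 0 < C ∧ ∀ N : ℕ, 1 ≤ N → ∀ Ψ : (Fin N → E3) → ℂ, ContDiff ℝ ∞ Ψ → HasCompactSupport Ψ →
    (∀ σ : Equiv.Perm (Fin N), ∀ x, Ψ (x ∘ σ) = Ψ x) →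
      -(C * N) * ∫ x, ‖Ψ x‖ ^ 2 ≤ energy Vext V W β N Ψ


section part1
section general

variable {F : Type*} [NormedAddCommGroup F] [NormedSpace ℝ F] [FiniteDimensional ℝ F]
  [MeasurableSpace F] [BorelSpace F] (μ : Measure F) [μ.IsAddHaarMeasure]

lemma lintegral_comp_smul' (g : F → ℝ≥0∞) (hg : Measurable g) {r : ℝ} (hr : r ≠ 0) :
    ∫⁻ x, g (r • x) ∂μ = ENNReal.ofReal (abs (r ^ Module.finrank ℝ F)⁻¹) * ∫⁻ x, g x ∂μ := by
  have h := Measure.map_addHaar_smul μ hr
  rw [← lintegral_map hg (by fun_prop : Measurable (fun x : F => r • x)), h, lintegral_smul_measure]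
  rfl

lemma lintegral_affine (g : F → ℝ≥0∞) (hg : Measurable g) {r : ℝ} (hr : r ≠ 0) (a : F) :
    ∫⁻ x, g (a + r • x) ∂μ = ENNReal.ofReal (abs (r ^ Module.finrank ℝ F)⁻¹) * ∫⁻ x, g x ∂μ := by
  have h1 := lintegral_comp_smul' μ (fun x => g (a + x)) (by fun_prop) hr
  rw [h1, lintegral_add_left_eq_self]

/-- integrating a nonnegative function along segments of a convex set -/
lemma segment_bound {B : Set F} (hB : MeasurableSet B) (hconv : Convex ℝ B) (g : F → ℝ≥0∞)
    (hg : Measurable g) {t : ℝ} (ht0 : 0 ≤ t) (ht1 : t ≤ 1) :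
    ∫⁻ x in B, ∫⁻ y in B, g (x + t • (y - x)) ∂μ ∂μ
      ≤ 2 ^ Module.finrank ℝ F * μ B * ∫⁻ z in B, g z ∂μ := by
  set d := Module.finrank ℝ F
  have key : ∀ r : ℝ, 1 / 2 ≤ r → r ≤ 1 → ∀ a ∈ B,
      ∫⁻ y in B, g (a + r • (y - a)) ∂μ ≤ 2 ^ d * ∫⁻ z in B, g z ∂μ := by
    intro r hr hr1 a ha
    have hr0 : r ≠ 0 := by linarith
    have h1 : ∫⁻ y in B, g (a + r • (y - a)) ∂μ
        ≤ ∫⁻ y, (B.indicator g) ((a - r • a) + r • y) ∂μ := by
      rw [← lintegral_indicator hB]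
      apply lintegral_mono
      intro y
      by_cases hy : y ∈ B
      · have hmem : (a - r • a) + r • y ∈ B := by
          have := hconv ha hy (by linarith : 0 ≤ 1 - r) (by linarith : 0 ≤ r) (by ring)
          convert this using 1
          rw [sub_smul, one_smul]
        simp only [indicator_of_mem hy, indicator_of_mem hmem]
        apply le_of_eq
        congr 1
        rw [smul_sub]; abel
      · simp [indicator_of_notMem hy]
    refine h1.trans ?_
    rw [lintegral_affine μ _ (hg.indicator hB) hr0, lintegral_indicator hB]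
    gcongr
    rw [abs_of_pos (by positivity)]
    have : (r ^ d)⁻¹ ≤ 2 ^ d := by
      rw [← inv_pow]
      apply pow_le_pow_left₀ (by positivity)
      rw [inv_le_comm₀ (by linarith) (by norm_num)]
      linarith
    calc ENNReal.ofReal (r ^ d)⁻¹ ≤ ENNReal.ofReal (2 ^ d) := ENNReal.ofReal_le_ofReal this
      _ = 2 ^ d := by
        rw [ENNReal.ofReal_pow (by norm_num)]; norm_num
  rcases le_or_gt (1 / 2) t with h | h
  · calc ∫⁻ x in B, ∫⁻ y in B, g (x + t • (y - x)) ∂μ ∂μ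
        ≤ ∫⁻ x in B, 2 ^ d * ∫⁻ z in B, g z ∂μ ∂μ := by
          apply setLIntegral_mono' hB
          intro x hx
          exact key t h ht1 x hx
      _ = 2 ^ d * μ B * ∫⁻ z in B, g z ∂μ := by
          rw [setLIntegral_const]; ring
  · have hmeas : Measurable (Function.uncurry fun x y : F => g (x + t • (y - x))) := by
      apply hg.comp
      fun_prop
    rw [lintegral_lintegral_swap hmeas.aemeasurable]
    calc ∫⁻ y in B, ∫⁻ x in B, g (x + t • (y - x)) ∂μ ∂μ
        = ∫⁻ y in B, ∫⁻ x in B, g (y + (1 - t) • (x - y)) ∂μ ∂μ := by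
          congr 1; ext y; congr 1; ext x; congr 1
          rw [sub_smul, one_smul, smul_sub, smul_sub]; abel
      _ ≤ ∫⁻ y in B, 2 ^ d * ∫⁻ z in B, g z ∂μ ∂μ := by
          apply setLIntegral_mono' hB
          intro y hy
          exact key (1 - t) (by linarith) (by linarith) y hy
      _ = 2 ^ d * μ B * ∫⁻ z in B, g z ∂μ := by
          rw [setLIntegral_const]; ring

omit [FiniteDimensional ℝ F] [MeasurableSpace F] [BorelSpace F] in
/-- squared increment along a segment -/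
lemma increment_bound {f : F → ℂ} (hf : ContDiff ℝ 1 f) (x y : F) {K : F → ℝ} (hK : Continuous K)
    {M : ℝ}
    (hb : ∀ t ∈ Icc (0 : ℝ) 1, ‖fderiv ℝ f (x + t • (y - x)) (y - x)‖ ^ 2 ≤ M * K (x + t • (y - x))) :
    ‖f y - f x‖ ^ 2 ≤ M * ∫ t in (0 : ℝ)..1, K (x + t • (y - x)) := by
  set φ : ℝ → ℂ := fun t => fderiv ℝ f (x + t • (y - x)) (y - x) with hφ
  have hc : Continuous φ := by
    have h1 : Continuous (fderiv ℝ f) := hf.continuous_fderiv (by norm_num)
    have h2 : Continuous (fun t : ℝ => x + t • (y - x)) := by fun_prop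
    exact (h1.comp h2).clm_apply continuous_const
  have hder : ∀ t ∈ uIcc (0 : ℝ) 1, HasDerivAt (fun t : ℝ => f (x + t • (y - x))) (φ t) t := by
    intro t _
    have h1 : HasFDerivAt f (fderiv ℝ f (x + t • (y - x))) (x + t • (y - x)) :=
      ((hf.differentiable (by norm_num)) _).hasFDerivAt
    have h2 : HasDerivAt (fun t : ℝ => x + t • (y - x)) (y - x) t := by
      simpa using ((hasDerivAt_id t).smul_const (y - x)).const_add x
    exact h1.comp_hasDerivAt t h2
  have hint : ∫ t in (0 : ℝ)..1, φ t = f y - f x := by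
    rw [intervalIntegral.integral_eq_sub_of_hasDerivAt hder (hc.intervalIntegrable _ _)]
    simp
  have h1 : ‖f y - f x‖ ≤ ∫ t in (0 : ℝ)..1, ‖φ t‖ := by
    rw [← hint]
    exact intervalIntegral.norm_integral_le_integral_norm zero_le_one
  set c := ∫ t in (0 : ℝ)..1, ‖φ t‖ with hcdef
  have hc0 : 0 ≤ c := (norm_nonneg _).trans h1
  have h2 : c ^ 2 ≤ ∫ t in (0 : ℝ)..1, ‖φ t‖ ^ 2 := by
    have h3 : 0 ≤ ∫ t in (0 : ℝ)..1, (‖φ t‖ - c) ^ 2 :=
      intervalIntegral.integral_nonneg zero_le_one (fun t _ => sq_nonneg _)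
    have h4 : ∫ t in (0 : ℝ)..1, (‖φ t‖ - c) ^ 2
        = (∫ t in (0 : ℝ)..1, ‖φ t‖ ^ 2) - 2 * c * c + c ^ 2 := by
      have e : ∀ t, (‖φ t‖ - c) ^ 2 = (‖φ t‖ ^ 2 - 2 * c * ‖φ t‖) + c ^ 2 := fun t => by ring
      simp_rw [e]
      rw [intervalIntegral.integral_add, intervalIntegral.integral_sub,
        intervalIntegral.integral_const_mul, ← hcdef]
      · simp
      · exact (hc.norm.pow 2).intervalIntegrable _ _
      · exact (continuous_const.mul hc.norm).intervalIntegrable _ _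
      · exact ((hc.norm.pow 2).sub (continuous_const.mul hc.norm)).intervalIntegrable _ _
      · exact continuous_const.intervalIntegrable _ _
    nlinarith
  have h5 : ∫ t in (0 : ℝ)..1, ‖φ t‖ ^ 2 ≤ ∫ t in (0 : ℝ)..1, M * K (x + t • (y - x)) := by
    apply intervalIntegral.integral_mono_on zero_le_one ((hc.norm.pow 2).intervalIntegrable _ _)
    · exact (continuous_const.mul (hK.comp (by fun_prop))).intervalIntegrable _ _
    · intro t ht; exact hb t ht
  rw [intervalIntegral.integral_const_mul] at h5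
  calc ‖f y - f x‖ ^ 2 ≤ c ^ 2 := pow_le_pow_left₀ (norm_nonneg _) h1 2
    _ ≤ _ := h2.trans h5

/-- Poincare inequality in double integral form on a convex set. -/
lemma poincare {B : Set F} (hB : MeasurableSet B) (hconv : Convex ℝ B) {f : F → ℂ}
    (hf : ContDiff ℝ 1 f) {K : F → ℝ} (hK : Continuous K) (hK0 : ∀ z, 0 ≤ K z) {M : ℝ} (hM : 0 ≤ M)
    (hb : ∀ x ∈ B, ∀ y ∈ B, ∀ z, ‖fderiv ℝ f z (y - x)‖ ^ 2 ≤ M * K z) [SFinite μ] :
    ∫⁻ x in B, ∫⁻ y in B, ‖f x - f y‖ₑ ^ 2 ∂μ ∂μ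
      ≤ ENNReal.ofReal M * (2 ^ Module.finrank ℝ F * μ B * ∫⁻ z in B, ENNReal.ofReal (K z) ∂μ) := by
  have h1 : ∀ x ∈ B, ∀ y ∈ B, ‖f x - f y‖ₑ ^ 2
      ≤ ENNReal.ofReal M * ∫⁻ t in Icc (0 : ℝ) 1, ENNReal.ofReal (K (x + t • (y - x))) := by
    intro x hx y hy
    have h := increment_bound hf x y hK (M := M) (fun t _ => hb x hx y hy _)
    have hcont : Continuous (fun t : ℝ => K (x + t • (y - x))) := hK.comp (by fun_prop)
    have h2 : ∫ t in (0 : ℝ)..1, K (x + t • (y - x)) = ∫ t in Icc (0 : ℝ) 1, K (x + t • (y - x)) := by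
      rw [intervalIntegral.integral_of_le zero_le_one, integral_Icc_eq_integral_Ioc]
    rw [h2] at h
    have h3 : ENNReal.ofReal (∫ t in Icc (0 : ℝ) 1, K (x + t • (y - x)))
        = ∫⁻ t in Icc (0 : ℝ) 1, ENNReal.ofReal (K (x + t • (y - x))) := by
      apply ofReal_integral_eq_lintegral_ofReal
      · exact hcont.continuousOn.integrableOn_Icc
      · exact Eventually.of_forall fun t => hK0 _
    rw [← h3, ← ENNReal.ofReal_mul hM]
    have h4 : ‖f x - f y‖ₑ ^ 2 = ENNReal.ofReal (‖f y - f x‖ ^ 2) := by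
      rw [← ofReal_norm, norm_sub_rev, ENNReal.ofReal_pow (norm_nonneg _)]
    rw [h4]
    exact ENNReal.ofReal_le_ofReal h
  calc ∫⁻ x in B, ∫⁻ y in B, ‖f x - f y‖ₑ ^ 2 ∂μ ∂μ
      ≤ ∫⁻ x in B, ∫⁻ y in B, (ENNReal.ofReal M *
          ∫⁻ t in Icc (0 : ℝ) 1, ENNReal.ofReal (K (x + t • (y - x)))) ∂μ ∂μ := by
        apply setLIntegral_mono' hB
        intro x hx
        apply setLIntegral_mono' hB
        intro y hy
        exact h1 x hx y hy
    _ = ENNReal.ofReal M * ∫⁻ x in B, ∫⁻ y in B,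
          (∫⁻ t in Icc (0 : ℝ) 1, ENNReal.ofReal (K (x + t • (y - x)))) ∂μ ∂μ := by
        rw [← lintegral_const_mul' _ _ ENNReal.ofReal_ne_top]
        congr 1; ext x
        rw [← lintegral_const_mul' _ _ ENNReal.ofReal_ne_top]
    _ ≤ _ := by
        gcongr
        have hmK : Measurable K := hK.measurable
        have hm3 : Measurable (fun p : (F × F) × ℝ => ENNReal.ofReal (K (p.1.1 + p.2 • (p.1.2 - p.1.1)))) := by
          apply ENNReal.measurable_ofReal.comp
          apply hmK.comp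
          fun_prop
        have hswap : ∫⁻ x in B, ∫⁻ y in B,
            (∫⁻ t in Icc (0 : ℝ) 1, ENNReal.ofReal (K (x + t • (y - x)))) ∂μ ∂μ
            = ∫⁻ t in Icc (0 : ℝ) 1, ∫⁻ x in B, ∫⁻ y in B,
              ENNReal.ofReal (K (x + t • (y - x))) ∂μ ∂μ := by
          have e1 : ∀ x, ∫⁻ y in B, (∫⁻ t in Icc (0 : ℝ) 1, ENNReal.ofReal (K (x + t • (y - x)))) ∂μ
              = ∫⁻ t in Icc (0 : ℝ) 1, ∫⁻ y in B, ENNReal.ofReal (K (x + t • (y - x))) ∂μ := by
            intro x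
            apply lintegral_lintegral_swap
            have : Measurable (Function.uncurry fun (y : F) (t : ℝ) =>
              ENNReal.ofReal (K (x + t • (y - x)))) := by
              apply ENNReal.measurable_ofReal.comp
              apply hmK.comp
              fun_prop
            exact this.aemeasurable
          simp_rw [e1]
          apply lintegral_lintegral_swap
          have h5 : Measurable (fun q : (F × ℝ) × F =>
              ENNReal.ofReal (K (q.1.1 + q.1.2 • (q.2 - q.1.1)))) := by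
            apply ENNReal.measurable_ofReal.comp
            apply hmK.comp
            fun_prop
          have h6 : Measurable (Function.uncurry fun (x : F) (t : ℝ) => ∫⁻ y in B,
              ENNReal.ofReal (K (x + t • (y - x))) ∂μ) := by
            exact h5.lintegral_prod_right'
          exact h6.aemeasurable
        rw [hswap]
        calc ∫⁻ t in Icc (0 : ℝ) 1, ∫⁻ x in B, ∫⁻ y in B,
              ENNReal.ofReal (K (x + t • (y - x))) ∂μ ∂μ
            ≤ ∫⁻ t in Icc (0 : ℝ) 1, 2 ^ Module.finrank ℝ F * μ B * ∫⁻ z in B, ENNReal.ofReal (K z) ∂μ := by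
              apply setLIntegral_mono' measurableSet_Icc
              intro t ht
              exact segment_bound μ hB hconv (fun z => ENNReal.ofReal (K z))
                (ENNReal.measurable_ofReal.comp hmK) ht.1 ht.2
          _ = _ := by
              rw [setLIntegral_const]
              simp

end general

end part1

section part2
def cube (p : Fin 3 → ℝ) (s : ℝ) : Set E3 := {x | ∀ k, p k ≤ x k ∧ x k < p k + s}

lemma mem_cube {p : Fin 3 → ℝ} {s : ℝ} {x : E3} : x ∈ cube p s ↔ ∀ k, p k ≤ x k ∧ x k < p k + s :=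
  Iff.rfl

lemma cube_eq_preimage (p : Fin 3 → ℝ) (s : ℝ) :
    cube p s = (WithLp.ofLp : E3 → (Fin 3 → ℝ)) ⁻¹' (Set.univ.pi fun k => Ico (p k) (p k + s)) := by
  ext x
  simp only [mem_cube, Set.mem_preimage, Set.mem_pi, Set.mem_univ, forall_true_left, Set.mem_Ico]

lemma measurableSet_cube (p : Fin 3 → ℝ) (s : ℝ) : MeasurableSet (cube p s) := by
  rw [cube_eq_preimage]
  exact (PiLp.volume_preserving_ofLp (Fin 3)).measurable
    (MeasurableSet.univ_pi fun k => measurableSet_Ico)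

lemma volume_cube (p : Fin 3 → ℝ) {s : ℝ} : volume (cube p s) = ENNReal.ofReal s ^ 3 := by
  rw [cube_eq_preimage, (PiLp.volume_preserving_ofLp (Fin 3)).measure_preimage
    (MeasurableSet.univ_pi fun k => measurableSet_Ico).nullMeasurableSet]
  rw [Real.volume_pi_Ico]
  simp

lemma convex_cube (p : Fin 3 → ℝ) (s : ℝ) : Convex ℝ (cube p s) := by
  intro x hx y hy a b ha hb hab k
  have h1 := hx k
  have h2 := hy k
  have e : (a • x + b • y) k = a * x k + b * y k := by simp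
  rw [e]
  have e2 : p k = a * p k + b * p k := by rw [← add_mul, hab, one_mul]
  constructor
  · nlinarith [mul_le_mul_of_nonneg_left h1.1 ha, mul_le_mul_of_nonneg_left h2.1 hb]
  · have e3 : p k + s = a * (p k + s) + b * (p k + s) := by rw [← add_mul, hab, one_mul]
    rw [e3]
    rcases ha.eq_or_lt with rfl | ha'
    · have hb1 : b = 1 := by linarith
      subst hb1
      simpa using h2.2
    · have := mul_lt_mul_of_pos_left h1.2 ha'
      have := mul_le_mul_of_nonneg_left h2.2.le hb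
      linarith

/-- subdivision of a cube -/
def sub (p : Fin 3 → ℝ) (s : ℝ) {n : ℕ} (κ : Fin 3 → Fin n) : Set E3 :=
  cube (fun k => p k + s * (κ k : ℝ)) s

lemma cube_eq_iUnion (p : Fin 3 → ℝ) {s : ℝ} (hs : 0 < s) (n : ℕ) :
    cube p (n * s) = ⋃ κ : Fin 3 → Fin n, sub p s κ := by
  ext x
  simp only [mem_iUnion, sub, mem_cube]
  constructor
  · intro hx
    have h0 : ∀ k, 0 ≤ (x k - p k) / s := fun k => div_nonneg (by linarith [(hx k).1]) hs.le
    have hn : ∀ k, (x k - p k) / s < n := fun k => by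
      rw [div_lt_iff₀ hs]; linarith [(hx k).2]
    refine ⟨fun k => ⟨⌊(x k - p k) / s⌋₊, ?_⟩, fun k => ?_⟩
    · rw [Nat.floor_lt (h0 k)]; exact hn k
    · simp only
      have h1 := Nat.floor_le (h0 k)
      have h2 := Nat.lt_floor_add_one ((x k - p k) / s)
      rw [le_div_iff₀ hs] at h1
      rw [div_lt_iff₀ hs] at h2
      constructor <;> linarith
  · rintro ⟨κ, hκ⟩ k
    have h1 := hκ k
    have h2 : ((κ k : ℕ) : ℝ) + 1 ≤ n := by exact_mod_cast (κ k).2
    have h3 : (0 : ℝ) ≤ ((κ k : ℕ) : ℝ) := by positivity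
    constructor
    · nlinarith [h1.1]
    · nlinarith [h1.2]

lemma sub_disjoint (p : Fin 3 → ℝ) {s : ℝ} (hs : 0 < s) {n : ℕ} {κ κ' : Fin 3 → Fin n} (h : κ ≠ κ') :
    Disjoint (sub p s κ) (sub p s κ') := by
  rw [Set.disjoint_left]
  intro x hx hx'
  apply h
  ext k
  have h1 := hx k
  have h2 := hx' k
  simp only at h1 h2
  have h3 : ((κ k : ℕ) : ℝ) < (κ' k : ℕ) + 1 := by
    by_contra hc
    push Not at hc
    nlinarith
  have h4 : ((κ' k : ℕ) : ℝ) < (κ k : ℕ) + 1 := by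
    by_contra hc
    push Not at hc
    nlinarith
  have h5 : (κ k : ℕ) < (κ' k : ℕ) + 1 := by exact_mod_cast h3
  have h6 : (κ' k : ℕ) < (κ k : ℕ) + 1 := by exact_mod_cast h4
  omega

lemma sub_subset (p : Fin 3 → ℝ) {s : ℝ} (hs : 0 < s) {n : ℕ} (κ : Fin 3 → Fin n) :
    sub p s κ ⊆ cube p (n * s) := by
  rw [cube_eq_iUnion p hs n]
  exact subset_iUnion (fun κ => sub p s κ) κ

/-! ### comparison of two sets -/

lemma sq_add_le (δ : ℝ) (hδ : 0 < δ) (a b : ℝ) : (a + b) ^ 2 ≤ (1 + δ) * a ^ 2 + (1 + δ⁻¹) * b ^ 2 := by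
  have h : 0 ≤ δ⁻¹ * (δ * a - b) ^ 2 := by positivity
  have h1 : δ⁻¹ * δ = 1 := inv_mul_cancel₀ hδ.ne'
  have e : δ⁻¹ * (δ * a - b) ^ 2 = δ * a ^ 2 - 2 * a * b + δ⁻¹ * b ^ 2 := by
    linear_combination (δ * a ^ 2 - 2 * a * b) * h1
  rw [e] at h
  linarith [h]

lemma enorm_sq_le (δ : ℝ) (hδ : 0 < δ) (u v : ℂ) :
    ‖u‖ₑ ^ 2 ≤ ENNReal.ofReal (1 + δ) * ‖v‖ₑ ^ 2 + ENNReal.ofReal (1 + δ⁻¹) * ‖u - v‖ₑ ^ 2 := by
  have h1 : ‖u‖ ^ 2 ≤ (1 + δ) * ‖v‖ ^ 2 + (1 + δ⁻¹) * ‖u - v‖ ^ 2 := by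
    have h2 : ‖u‖ ≤ ‖v‖ + ‖u - v‖ := by
      have := norm_add_le v (u - v)
      simpa using this
    exact (pow_le_pow_left₀ (norm_nonneg _) h2 2).trans (sq_add_le δ hδ _ _)
  have h3 := ENNReal.ofReal_le_ofReal h1
  rw [ENNReal.ofReal_add (by positivity) (by positivity), ENNReal.ofReal_mul (by positivity),
    ENNReal.ofReal_mul (by positivity), ENNReal.ofReal_pow (norm_nonneg _),
    ENNReal.ofReal_pow (norm_nonneg _), ENNReal.ofReal_pow (norm_nonneg _), ofReal_norm, ofReal_norm,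
    ofReal_norm] at h3
  exact h3

section cmp

variable {F : Type*} [NormedAddCommGroup F] [MeasurableSpace F] [BorelSpace F] [SecondCountableTopology F]
  (μ : Measure F) [SFinite μ]

lemma compare {A B : Set F} {f : F → ℂ} (hf : Continuous f) {δ : ℝ} (hδ : 0 < δ) :
    μ B * ∫⁻ x in A, ‖f x‖ₑ ^ 2 ∂μ ≤ ENNReal.ofReal (1 + δ) * μ A * ∫⁻ y in B, ‖f y‖ₑ ^ 2 ∂μ
      + ENNReal.ofReal (1 + δ⁻¹) * ∫⁻ x in A, ∫⁻ y in B, ‖f x - f y‖ₑ ^ 2 ∂μ ∂μ := by
  have hfm : Measurable f := hf.measurable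
  have hm : Measurable (fun x => ‖f x‖ₑ ^ 2) := by fun_prop
  have hm2 : Measurable (fun p : F × F => ‖f p.1 - f p.2‖ₑ ^ 2) := by fun_prop
  have hm3 : ∀ x, Measurable (fun y => ‖f x - f y‖ₑ ^ 2) := fun x => by fun_prop
  have hm4 : Measurable (fun x => ∫⁻ y in B, ‖f x - f y‖ₑ ^ 2 ∂μ) :=
    Measurable.lintegral_prod_right' (f := fun p : F × F => ‖f p.1 - f p.2‖ₑ ^ 2) hm2
  calc μ B * ∫⁻ x in A, ‖f x‖ₑ ^ 2 ∂μ = ∫⁻ x in A, ∫⁻ y in B, ‖f x‖ₑ ^ 2 ∂μ ∂μ := by
        rw [← lintegral_const_mul _ hm]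
        congr 1; ext x
        rw [setLIntegral_const, mul_comm]
    _ ≤ ∫⁻ x in A, ∫⁻ y in B, (ENNReal.ofReal (1 + δ) * ‖f y‖ₑ ^ 2 +
          ENNReal.ofReal (1 + δ⁻¹) * ‖f x - f y‖ₑ ^ 2) ∂μ ∂μ := by
        apply lintegral_mono; intro x
        apply lintegral_mono; intro y
        exact enorm_sq_le δ hδ _ _
    _ = ∫⁻ x in A, (ENNReal.ofReal (1 + δ) * ∫⁻ y in B, ‖f y‖ₑ ^ 2 ∂μ +
          ENNReal.ofReal (1 + δ⁻¹) * ∫⁻ y in B, ‖f x - f y‖ₑ ^ 2 ∂μ) ∂μ := by
        congr 1; ext x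
        rw [lintegral_add_left (hm.const_mul _), lintegral_const_mul _ hm,
          lintegral_const_mul _ (hm3 x)]
    _ = _ := by
        rw [lintegral_add_left measurable_const, setLIntegral_const, lintegral_const_mul _ hm4]
        ring

lemma compare_weight {A : Set F} {f : F → ℂ} (hf : Continuous f) {v : F → ℝ≥0∞} (hv : Measurable v)
    {M : ℝ≥0∞} (hM : ∀ y, v y ≤ M) :
    (∫⁻ y in A, v y ∂μ) * ∫⁻ x in A, ‖f x‖ₑ ^ 2 ∂μ ≤ 2 * μ A * ∫⁻ y in A, v y * ‖f y‖ₑ ^ 2 ∂μ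
      + 2 * M * ∫⁻ x in A, ∫⁻ y in A, ‖f x - f y‖ₑ ^ 2 ∂μ ∂μ := by
  have hfm : Measurable f := hf.measurable
  have hm : Measurable (fun x => ‖f x‖ₑ ^ 2) := by fun_prop
  have hvm : Measurable (fun y => v y * ‖f y‖ₑ ^ 2) := hv.mul hm
  have hm2 : Measurable (fun p : F × F => ‖f p.1 - f p.2‖ₑ ^ 2) := by fun_prop
  have hm3 : ∀ x, Measurable (fun y => ‖f x - f y‖ₑ ^ 2) := fun x => by fun_prop
  have hm4 : Measurable (fun x => ∫⁻ y in A, ‖f x - f y‖ₑ ^ 2 ∂μ) :=
    Measurable.lintegral_prod_right' (f := fun p : F × F => ‖f p.1 - f p.2‖ₑ ^ 2) hm2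
  calc (∫⁻ y in A, v y ∂μ) * ∫⁻ x in A, ‖f x‖ₑ ^ 2 ∂μ
      = ∫⁻ x in A, ∫⁻ y in A, v y * ‖f x‖ₑ ^ 2 ∂μ ∂μ := by
        rw [← lintegral_const_mul _ hm]
        congr 1; ext x
        rw [lintegral_mul_const _ hv]
    _ ≤ ∫⁻ x in A, ∫⁻ y in A, (2 * (v y * ‖f y‖ₑ ^ 2) + (2 * M) * ‖f x - f y‖ₑ ^ 2) ∂μ ∂μ := by
        apply lintegral_mono; intro x
        apply lintegral_mono; intro y
        have h := enorm_sq_le 1 one_pos (f x) (f y)
        norm_num at h
        show v y * ‖f x‖ₑ ^ 2 ≤ 2 * (v y * ‖f y‖ₑ ^ 2) + 2 * M * ‖f x - f y‖ₑ ^ 2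
        calc v y * ‖f x‖ₑ ^ 2 ≤ v y * (2 * ‖f y‖ₑ ^ 2 + 2 * ‖f x - f y‖ₑ ^ 2) := by gcongr
          _ = 2 * (v y * ‖f y‖ₑ ^ 2) + (2 * v y) * ‖f x - f y‖ₑ ^ 2 := by ring
          _ ≤ _ := by gcongr; exact hM y
    _ = ∫⁻ x in A, (2 * (∫⁻ y in A, v y * ‖f y‖ₑ ^ 2 ∂μ) +
          (2 * M) * ∫⁻ y in A, ‖f x - f y‖ₑ ^ 2 ∂μ) ∂μ := by
        congr 1; ext x
        rw [lintegral_add_left (hvm.const_mul _), lintegral_const_mul _ hvm,
          lintegral_const_mul _ (hm3 x)]
    _ = _ := by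
        rw [lintegral_add_left measurable_const, setLIntegral_const, lintegral_const_mul _ hm4]
        ring

end cmp

end part2

section part3
abbrev F9 := E3 × E3 × E3

abbrev ek (k : Fin 3) : E3 := EuclideanSpace.single k (1 : ℝ)

def K9 (f : F9 → ℂ) (z : F9) : ℝ :=
  ∑ k : Fin 3, (‖fderiv ℝ f z (ek k, 0, 0)‖ ^ 2 + ‖fderiv ℝ f z (0, ek k, 0)‖ ^ 2
    + ‖fderiv ℝ f z (0, 0, ek k)‖ ^ 2)

lemma K9_nonneg (f : F9 → ℂ) (z : F9) : 0 ≤ K9 f z := by
  unfold K9; positivity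

lemma K9_cont {f : F9 → ℂ} (hf : ContDiff ℝ 1 f) : Continuous (K9 f) := by
  have h1 : Continuous (fderiv ℝ f) := hf.continuous_fderiv (by norm_num)
  unfold K9
  apply continuous_finsetSum
  intro k _
  exact (((h1.clm_apply continuous_const).norm.pow 2).add
    ((h1.clm_apply continuous_const).norm.pow 2)).add ((h1.clm_apply continuous_const).norm.pow 2)

lemma decomp (x : E3) : x = ∑ k : Fin 3, x k • ek k := by
  ext j
  fin_cases j <;> simp [Fin.sum_univ_three]

lemma decomp9 (h : F9) : h = ∑ k : Fin 3, (h.1 k • ((ek k, 0, 0) : F9) + h.2.1 k • ((0, ek k, 0) : F9)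
    + h.2.2 k • ((0, 0, ek k) : F9)) := by
  obtain ⟨a, b, c⟩ := h
  have ha := decomp a
  have hb := decomp b
  have hc := decomp c
  ext1
  · simp only [Prod.fst_sum, Prod.fst_add, Prod.smul_mk, smul_zero, add_zero]
    exact ha
  · ext1
    · simp only [Prod.fst_sum, Prod.snd_sum, Prod.fst_add, Prod.snd_add, Prod.smul_mk, smul_zero, add_zero,
        zero_add]
      exact hb
    · simp only [Prod.snd_sum, Prod.snd_add, Prod.smul_mk, smul_zero, add_zero, zero_add]
      exact hc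

lemma fderiv_bound (f : F9 → ℂ) (z h : F9) {s : ℝ}
    (h1 : ∀ k, |h.1 k| ≤ s) (h2 : ∀ k, |h.2.1 k| ≤ s) (h3 : ∀ k, |h.2.2 k| ≤ s) :
    ‖fderiv ℝ f z h‖ ^ 2 ≤ 9 * s ^ 2 * K9 f z := by
  set L := fderiv ℝ f z
  have e1 : L h = ∑ k : Fin 3, (h.1 k • L (ek k, 0, 0) + h.2.1 k • L (0, ek k, 0)
      + h.2.2 k • L (0, 0, ek k)) := by
    conv_lhs => rw [decomp9 h]
    rw [map_sum]
    simp only [map_add, map_smul]
  have e2 : ‖L h‖ ≤ s * ∑ k : Fin 3, (‖L (ek k, 0, 0)‖ + ‖L (0, ek k, 0)‖ + ‖L (0, 0, ek k)‖) := by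
    rw [e1, Finset.mul_sum]
    refine (norm_sum_le _ _).trans (Finset.sum_le_sum fun k _ => ?_)
    have t1 : ‖h.1 k • L (ek k, 0, 0)‖ ≤ s * ‖L (ek k, 0, 0)‖ := by
      rw [norm_smul]; exact mul_le_mul_of_nonneg_right (h1 k) (norm_nonneg _)
    have t2 : ‖h.2.1 k • L (0, ek k, 0)‖ ≤ s * ‖L (0, ek k, 0)‖ := by
      rw [norm_smul]; exact mul_le_mul_of_nonneg_right (h2 k) (norm_nonneg _)
    have t3 : ‖h.2.2 k • L (0, 0, ek k)‖ ≤ s * ‖L (0, 0, ek k)‖ := by
      rw [norm_smul]; exact mul_le_mul_of_nonneg_right (h3 k) (norm_nonneg _)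
    have t4 := norm_add₃_le (a := h.1 k • L (ek k, 0, 0)) (b := h.2.1 k • L (0, ek k, 0))
      (c := h.2.2 k • L (0, 0, ek k))
    linarith
  have e3 : (∑ k : Fin 3, (‖L (ek k, 0, 0)‖ + ‖L (0, ek k, 0)‖ + ‖L (0, 0, ek k)‖)) ^ 2
      ≤ 9 * K9 f z := by
    have h5 := sq_sum_le_card_mul_sum_sq (s := (Finset.univ : Finset (Fin 3)))
      (f := fun k => ‖L (ek k, 0, 0)‖ + ‖L (0, ek k, 0)‖ + ‖L (0, 0, ek k)‖)
    simp only [Finset.card_univ, Fintype.card_fin] at h5
    have h6 : ∑ k : Fin 3, (‖L (ek k, 0, 0)‖ + ‖L (0, ek k, 0)‖ + ‖L (0, 0, ek k)‖) ^ 2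
        ≤ 3 * K9 f z := by
      unfold K9
      rw [Finset.mul_sum]
      apply Finset.sum_le_sum
      intro k _
      nlinarith [sq_nonneg (‖L (ek k, 0, 0)‖ - ‖L (0, ek k, 0)‖),
        sq_nonneg (‖L (ek k, 0, 0)‖ - ‖L (0, 0, ek k)‖), sq_nonneg (‖L (0, ek k, 0)‖ - ‖L (0, 0, ek k)‖)]
    push_cast at h5
    linarith
  have e4 := pow_le_pow_left₀ (norm_nonneg _) e2 2
  rw [mul_pow] at e4
  have e5 := mul_le_mul_of_nonneg_left e3 (sq_nonneg s)
  linarith

def box (Q : Set E3) : Set F9 := Q ×ˢ (Q ×ˢ Q)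

lemma measurableSet_box {Q : Set E3} (h : MeasurableSet Q) : MeasurableSet (box Q) :=
  h.prod (h.prod h)

lemma volume_box (Q : Set E3) : volume (box Q) = volume Q ^ 3 := by
  unfold box
  rw [Measure.volume_eq_prod, Measure.prod_prod, Measure.volume_eq_prod, Measure.prod_prod]
  ring

lemma box_subset {Q Q' : Set E3} (h : Q ⊆ Q') : box Q ⊆ box Q' :=
  Set.prod_mono h (Set.prod_mono h h)

lemma box_disjoint {Q Q' : Set E3} (h : Disjoint Q Q') : Disjoint (box Q) (box Q') := by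
  unfold box
  exact Set.Disjoint.set_prod_left h _ _

lemma finrank_F9 : Module.finrank ℝ F9 = 9 := by
  simp [Module.finrank_prod]

instance haar6 : (volume : Measure (E3 × E3)).IsAddHaarMeasure :=
  Measure.prod.instIsAddHaarMeasure _ _

instance haar9 : (volume : Measure F9).IsAddHaarMeasure :=
  Measure.prod.instIsAddHaarMeasure _ _

lemma poincare_box (p : Fin 3 → ℝ) {s : ℝ} {f : F9 → ℂ} (hf : ContDiff ℝ 1 f) :
    ∫⁻ x in box (cube p s), ∫⁻ y in box (cube p s), ‖f x - f y‖ₑ ^ 2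
      ≤ ENNReal.ofReal (9 * s ^ 2) * (2 ^ 9 * volume (box (cube p s)) *
        ∫⁻ z in box (cube p s), ENNReal.ofReal (K9 f z)) := by
  have hconv : Convex ℝ (box (cube p s)) :=
    (convex_cube p s).prod ((convex_cube p s).prod (convex_cube p s))
  have h := poincare (volume : Measure F9) (measurableSet_box (measurableSet_cube p s)) hconv hf
    (K9_cont hf) (K9_nonneg f) (M := 9 * s ^ 2) (by positivity) ?_
  · rw [finrank_F9] at h
    exact h
  · intro x hx y hy z
    have key : ∀ a b : E3, a ∈ cube p s → b ∈ cube p s → ∀ k, |(b - a) k| ≤ s := by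
      intro a b ha hb k
      have h1 := ha k
      have h2 := hb k
      have e : (b - a) k = b k - a k := rfl
      rw [e, abs_le]
      constructor <;> linarith [h1.1, h1.2, h2.1, h2.2]
    exact fderiv_bound f z (y - x) (key _ _ hx.1 hy.1) (key _ _ hx.2.1 hy.2.1)
      (key _ _ hx.2.2 hy.2.2)

/-- local three body energy density -/
def G9 (V : E3 → E3 → ℝ) (f : F9 → ℂ) (z : F9) : ℝ≥0∞ :=
  ENNReal.ofReal (K9 f z) + ENNReal.ofReal (V (z.1 - z.2.1) (z.1 - z.2.2)) * ‖f z‖ₑ ^ 2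

def Tprop (V : E3 → E3 → ℝ) (s C : ℝ) : Prop := ∀ p : Fin 3 → ℝ, ∀ f : F9 → ℂ, ContDiff ℝ 1 f →
  ∫⁻ z in box (cube p s), ‖f z‖ₑ ^ 2 ≤ ENNReal.ofReal C * ∫⁻ z in box (cube p s), G9 V f z

lemma T_step {V : E3 → E3 → ℝ} {s C : ℝ} (hs : 0 < s) (hC : 0 ≤ C) (hT : Tprop V s C) {δ : ℝ}
    (hδ : 0 < δ) : Tprop V (2 * s) (64 * ((1 + δ) * C + (1 + δ⁻¹) * (147456 * s ^ 2))) := by
  intro p f hf
  set A := box (cube p (2 * s)) with hA
  have hcast : cube p (2 * s) = cube p (((2 : ℕ) : ℝ) * s) := by norm_num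
  have hsub : ∀ κ : Fin 3 → Fin 2, sub p s κ ⊆ cube p (2 * s) := by
    intro κ; rw [hcast]; exact sub_subset p hs κ
  have hAm : MeasurableSet A := measurableSet_box (measurableSet_cube _ _)
  have hBm : ∀ κ : Fin 3 → Fin 2, MeasurableSet (box (sub p s κ)) := fun κ =>
    measurableSet_box (measurableSet_cube _ _)
  set b : ℝ≥0∞ := ENNReal.ofReal s ^ 9 with hb
  have hb0 : b ≠ 0 := by
    rw [hb]; exact pow_ne_zero _ (by simpa using hs)
  have hbt : b ≠ ⊤ := by rw [hb]; exact ENNReal.pow_ne_top ENNReal.ofReal_ne_top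
  have volB : ∀ κ : Fin 3 → Fin 2, volume (box (sub p s κ)) = b := by
    intro κ
    rw [volume_box, sub, volume_cube, ← pow_mul]
  have volA : volume A = 512 * b := by
    rw [hA, volume_box, volume_cube, ← pow_mul, ENNReal.ofReal_mul (by norm_num), mul_pow, hb]
    norm_num
  set I := ∫⁻ z in A, ‖f z‖ₑ ^ 2 with hI
  set GA := ∫⁻ z in A, G9 V f z with hGA
  set P := ∫⁻ x in A, ∫⁻ y in A, ‖f x - f y‖ₑ ^ 2 with hP
  -- comparison for every child
  have h1 : ∀ κ : Fin 3 → Fin 2, b * I ≤ ENNReal.ofReal (1 + δ) * (512 * b) *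
      (∫⁻ y in box (sub p s κ), ‖f y‖ₑ ^ 2) + ENNReal.ofReal (1 + δ⁻¹) * P := by
    intro κ
    have h := compare (volume : Measure F9) (A := A) (B := box (sub p s κ)) hf.continuous hδ
    rw [volB κ, volA] at h
    refine h.trans ?_
    have hPκ : ∫⁻ x in A, ∫⁻ y in box (sub p s κ), ‖f x - f y‖ₑ ^ 2 ≤ P := by
      rw [hP]
      apply lintegral_mono
      intro x
      exact lintegral_mono_set (box_subset (hsub κ))
    gcongr
  have h2 : ∑ κ : Fin 3 → Fin 2, b * I ≤ ∑ κ : Fin 3 → Fin 2, (ENNReal.ofReal (1 + δ) * (512 * b) *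
      (∫⁻ y in box (sub p s κ), ‖f y‖ₑ ^ 2) + ENNReal.ofReal (1 + δ⁻¹) * P) :=
    Finset.sum_le_sum fun κ _ => h1 κ
  rw [Finset.sum_const, Finset.sum_add_distrib, ← Finset.mul_sum, Finset.sum_const] at h2
  have hcard : (Finset.univ : Finset (Fin 3 → Fin 2)).card = 8 := by
    rw [Finset.card_univ, Fintype.card_fun]; norm_num
  rw [hcard] at h2
  -- children integrals
  have h3 : ∑ κ : Fin 3 → Fin 2, ∫⁻ y in box (sub p s κ), ‖f y‖ₑ ^ 2
      ≤ ENNReal.ofReal C * GA := by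
    calc ∑ κ : Fin 3 → Fin 2, ∫⁻ y in box (sub p s κ), ‖f y‖ₑ ^ 2
        ≤ ∑ κ : Fin 3 → Fin 2, ENNReal.ofReal C * ∫⁻ y in box (sub p s κ), G9 V f y :=
          Finset.sum_le_sum fun κ _ => hT _ f hf
      _ = ENNReal.ofReal C * ∑ κ : Fin 3 → Fin 2, ∫⁻ y in box (sub p s κ), G9 V f y := by
          rw [Finset.mul_sum]
      _ ≤ ENNReal.ofReal C * GA := by
          gcongr
          rw [hGA, ← lintegral_biUnion_finset (μ := volume) (f := G9 V f)
            (t := fun κ => box (sub p s κ)) (s := Finset.univ) ?_ (fun κ _ => hBm κ)]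
          · apply lintegral_mono_set
            apply iUnion₂_subset
            intro κ _
            exact box_subset (hsub κ)
          · intro κ _ κ' _ hne
            exact box_disjoint (sub_disjoint p hs hne)
  -- Poincare
  have h4 : P ≤ ENNReal.ofReal (36 * s ^ 2) * (512 * (512 * b) * GA) := by
    have h := poincare_box p (s := 2 * s) hf
    rw [← hA, volA] at h
    have e1 : (9 * (2 * s) ^ 2 : ℝ) = 36 * s ^ 2 := by ring
    rw [e1] at h
    refine h.trans ?_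
    have h2 : (2 : ℝ≥0∞) ^ 9 = 512 := by norm_num
    rw [h2]
    gcongr
    rw [hGA]
    apply lintegral_mono
    intro z
    exact le_self_add
  -- conclusion
  have h5 : (8 * b) * I ≤ (8 * b) * (ENNReal.ofReal (64 * ((1 + δ) * C + (1 + δ⁻¹) * (147456 * s ^ 2))) * GA) := by
    calc (8 * b) * I = 8 • (b * I) := by rw [nsmul_eq_mul]; push_cast; ring
      _ ≤ _ := h2
      _ ≤ ENNReal.ofReal (1 + δ) * (512 * b) * (ENNReal.ofReal C * GA)
          + 8 • (ENNReal.ofReal (1 + δ⁻¹) * (ENNReal.ofReal (36 * s ^ 2) * (512 * (512 * b) * GA))) := by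
          gcongr
      _ = _ := by
          have e : ENNReal.ofReal (64 * ((1 + δ) * C + (1 + δ⁻¹) * (147456 * s ^ 2)))
            = 64 * (ENNReal.ofReal (1 + δ) * ENNReal.ofReal C
              + ENNReal.ofReal (1 + δ⁻¹) * (4096 * ENNReal.ofReal (36 * s ^ 2))) := by
            rw [ENNReal.ofReal_mul (by norm_num), ENNReal.ofReal_add (by positivity) (by positivity),
              ENNReal.ofReal_mul (by positivity), ENNReal.ofReal_mul (by positivity)]
            have : (147456 * s ^ 2 : ℝ) = 4096 * (36 * s ^ 2) := by ring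
            rw [this, ENNReal.ofReal_mul (by norm_num)]
            norm_num
          rw [e, nsmul_eq_mul]
          push_cast
          ring
  have h8 : (8 * b : ℝ≥0∞) ≠ 0 := by simp [hb0]
  have h8t : (8 * b : ℝ≥0∞) ≠ ⊤ := ENNReal.mul_ne_top (by norm_num) hbt
  exact (ENNReal.mul_le_mul_iff_right h8 h8t).1 h5

end part3

section part4
structure VGood (V : E3 → E3 → ℝ) : Prop where
  meas : Measurable (fun p : E3 × E3 => V p.1 p.2)
  nonneg : ∀ x y, 0 ≤ V x y
  bdd : ∃ M, ∀ x y, V x y ≤ M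
  ne : ¬ (fun p : E3 × E3 => V p.1 p.2) =ᵐ[volume] 0

def vw (V : E3 → E3 → ℝ) (z : F9) : ℝ≥0∞ := ENNReal.ofReal (V (z.1 - z.2.1) (z.1 - z.2.2))

lemma vw_meas {V : E3 → E3 → ℝ} (hV : VGood V) : Measurable (vw V) := by
  have h1 : Measurable (fun z : F9 => ((z.1 - z.2.1, z.1 - z.2.2) : E3 × E3)) := by fun_prop
  have h2 : Measurable ((fun p : E3 × E3 => V p.1 p.2) ∘ (fun z : F9 => ((z.1 - z.2.1, z.1 - z.2.2) : E3 × E3))) :=
    hV.meas.comp h1
  exact ENNReal.measurable_ofReal.comp h2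

lemma vw_transl (V : E3 → E3 → ℝ) (p : Fin 3 → ℝ) (L : ℝ) :
    ∫⁻ z in box (cube p L), vw V z = ∫⁻ z in box (cube 0 L), vw V z := by
  set q : E3 := WithLp.toLp 2 p with hq
  have hmp : MeasurePreserving (fun z : F9 => z + (q, q, q)) volume volume :=
    measurePreserving_add_right _ _
  have hemb : MeasurableEmbedding (fun z : F9 => z + (q, q, q)) := measurableEmbedding_addRight _
  have h := hmp.setLIntegral_comp_preimage_emb hemb (vw V) (box (cube p L))
  rw [← h]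
  have hpre : (fun z : F9 => z + (q, q, q)) ⁻¹' box (cube p L) = box (cube 0 L) := by
    ext ⟨a, b, c⟩
    have key : ∀ x : E3, x + q ∈ cube p L ↔ x ∈ cube 0 L := by
      intro x
      simp only [mem_cube, PiLp.add_apply, hq, Pi.zero_apply]
      constructor
      · intro h k; have := h k; constructor <;> linarith [this.1, this.2]
      · intro h k; have := h k; constructor <;> linarith [this.1, this.2]
    simp only [box, Set.mem_preimage, Set.mem_prod, Prod.mk_add_mk, key]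
  rw [hpre]
  congr 1
  ext z
  simp [vw]

lemma exists_pos {V : E3 → E3 → ℝ} (hV : VGood V) :
    ∃ L : ℝ, 0 < L ∧ ∫⁻ z in box (cube 0 L), vw V z ≠ 0 := by
  by_contra hcon
  push Not at hcon
  have h1 : ∀ n : ℕ, ∀ᵐ z ∂(volume.restrict (box (cube (fun _ => -((n : ℝ) + 1)) (2 * ((n : ℝ) + 1))))),
      vw V z = 0 := by
    intro n
    have h2 := hcon (2 * ((n : ℝ) + 1)) (by positivity)
    rw [← vw_transl V (fun _ => -((n : ℝ) + 1))] at h2
    rw [lintegral_eq_zero_iff (vw_meas hV)] at h2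
    exact h2
  have h3 : ∀ᵐ z ∂(volume : Measure F9), vw V z = 0 := by
    have hU : (⋃ n : ℕ, box (cube (fun _ => -((n : ℝ) + 1)) (2 * ((n : ℝ) + 1)))) = univ := by
      rw [eq_univ_iff_forall]
      rintro ⟨a, b, c⟩
      obtain ⟨n, hn⟩ := exists_nat_gt (max ‖a‖ (max ‖b‖ ‖c‖))
      rw [mem_iUnion]
      refine ⟨n, ?_⟩
      have key : ∀ x : E3, ‖x‖ < n → x ∈ cube (fun _ => -((n : ℝ) + 1)) (2 * ((n : ℝ) + 1)) := by
        intro x hx k
        have h4 := PiLp.norm_apply_le x k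
        rw [Real.norm_eq_abs] at h4
        have h5 := abs_le.1 (h4.trans hx.le)
        constructor <;> linarith [h5.1, h5.2]
      exact ⟨key a (lt_of_le_of_lt (le_max_left _ _) hn),
        key b (lt_of_le_of_lt ((le_max_left _ _).trans (le_max_right _ _)) hn),
        key c (lt_of_le_of_lt ((le_max_right _ _).trans (le_max_right _ _)) hn)⟩
    have h4 := (ae_restrict_iUnion_iff (μ := (volume : Measure F9))
      (fun n : ℕ => box (cube (fun _ => -((n : ℝ) + 1)) (2 * ((n : ℝ) + 1)))) (fun z => vw V z = 0)).2 h1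
    rw [hU, Measure.restrict_univ] at h4
    exact h4
  have h4 : ∀ᵐ x ∂(volume : Measure E3), ∀ᵐ q ∂(volume : Measure (E3 × E3)), vw V (x, q) = 0 :=
    Measure.ae_ae_of_ae_prod h3
  obtain ⟨x, hx⟩ := h4.exists
  apply hV.ne
  haveI : (volume : Measure (E3 × E3)).IsNegInvariant :=
    Measure.IsAddHaarMeasure.isNegInvariant_of_regular _
  have hmp : MeasurePreserving (fun q : E3 × E3 => ((x, x) : E3 × E3) - q) volume volume :=
    Measure.measurePreserving_sub_left _ _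
  have h5 := hmp.quasiMeasurePreserving.ae hx
  filter_upwards [h5] with q hq
  have hq' : ENNReal.ofReal (V q.1 q.2) = 0 := by
    simpa [vw] using hq
  have := ENNReal.ofReal_eq_zero.1 hq'
  exact le_antisymm this (hV.nonneg _ _)

lemma exists_base {V : E3 → E3 → ℝ} (hV : VGood V) : ∃ L C : ℝ, 0 < L ∧ 0 ≤ C ∧ Tprop V L C := by
  obtain ⟨L, hL, hne⟩ := exists_pos hV
  obtain ⟨MV, hMV⟩ := hV.bdd
  set v0 := ∫⁻ z in box (cube 0 L), vw V z with hv0
  set M : ℝ≥0∞ := ENNReal.ofReal MV with hM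
  set a : ℝ≥0∞ := ENNReal.ofReal L ^ 9 with ha
  have hat : a ≠ ⊤ := by rw [ha]; exact ENNReal.pow_ne_top ENNReal.ofReal_ne_top
  have hvol : ∀ p, volume (box (cube p L)) = a := by
    intro p
    rw [volume_box, volume_cube, ← pow_mul]
  have hv0t : v0 ≠ ⊤ := by
    have h1 : v0 ≤ ∫⁻ z in box (cube 0 L), M := by
      rw [hv0]
      exact lintegral_mono fun z => ENNReal.ofReal_le_ofReal (hMV _ _)
    rw [setLIntegral_const, hvol] at h1
    exact ne_top_of_le_ne_top (ENNReal.mul_ne_top ENNReal.ofReal_ne_top hat) h1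
  set c : ℝ≥0∞ := v0⁻¹ * (2 * a + 2 * M * (ENNReal.ofReal (9 * L ^ 2) * (2 ^ 9 * a))) with hc
  have hct : c ≠ ⊤ := by
    rw [hc]
    apply ENNReal.mul_ne_top (ENNReal.inv_ne_top.2 hne)
    apply ENNReal.add_ne_top.2
    refine ⟨ENNReal.mul_ne_top (by norm_num) hat, ?_⟩
    apply ENNReal.mul_ne_top (ENNReal.mul_ne_top (by norm_num) ENNReal.ofReal_ne_top)
    exact ENNReal.mul_ne_top ENNReal.ofReal_ne_top (ENNReal.mul_ne_top (by norm_num) hat)
  refine ⟨L, c.toReal, hL, ENNReal.toReal_nonneg, ?_⟩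
  intro p f hf
  rw [ENNReal.ofReal_toReal hct]
  set A := box (cube p L) with hA
  set G := ∫⁻ z in A, G9 V f z with hG
  have h1 := compare_weight (volume : Measure F9) (A := A) hf.continuous (vw_meas hV) (M := M)
    (fun y => ENNReal.ofReal_le_ofReal (hMV _ _))
  rw [hA, vw_transl, ← hv0, ← hA] at h1
  have h2 := poincare_box p (s := L) hf
  rw [← hA, hvol p] at h2
  have h3 : ∫⁻ z in A, ENNReal.ofReal (K9 f z) ≤ G :=
    lintegral_mono fun z => le_self_add
  have h4 : ∫⁻ z in A, vw V z * ‖f z‖ₑ ^ 2 ≤ G :=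
    lintegral_mono fun z => le_add_self
  have h5 : v0 * ∫⁻ x in A, ‖f x‖ₑ ^ 2
      ≤ (2 * a + 2 * M * (ENNReal.ofReal (9 * L ^ 2) * (2 ^ 9 * a))) * G := by
    calc v0 * ∫⁻ x in A, ‖f x‖ₑ ^ 2 ≤ _ := h1
      _ ≤ 2 * a * G + 2 * M * (ENNReal.ofReal (9 * L ^ 2) * (2 ^ 9 * a * G)) := by
        rw [hvol p]
        gcongr
        exact h2.trans (by gcongr)
      _ = _ := by ring
  calc ∫⁻ x in A, ‖f x‖ₑ ^ 2 = v0⁻¹ * (v0 * ∫⁻ x in A, ‖f x‖ₑ ^ 2) := by
        rw [← mul_assoc, ENNReal.inv_mul_cancel hne hv0t, one_mul]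
    _ ≤ v0⁻¹ * ((2 * a + 2 * M * (ENNReal.ofReal (9 * L ^ 2) * (2 ^ 9 * a))) * G) := by gcongr
    _ = c * G := by rw [hc]; ring

lemma Tprop_mono {V : E3 → E3 → ℝ} {s C C' : ℝ} (h : Tprop V s C) (hC : C ≤ C') : Tprop V s C' := by
  intro p f hf
  refine (h p f hf).trans ?_
  gcongr

theorem exists_T {V : E3 → E3 → ℝ} (hV : VGood V) :
    ∃ L C : ℝ, 0 < L ∧ 0 < C ∧ ∀ J : ℕ, Tprop V (2 ^ J * L) (C * 64 ^ J) := by
  obtain ⟨L, C0, hL, hC0, hT0⟩ := exists_base hV
  set X : ℝ := 147456 * L ^ 2 with hX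
  have hX0 : 0 < X := by positivity
  set K : ℝ := Real.exp 4 * (C0 + 2 * X) with hK
  have hK0 : 0 < K := by positivity
  refine ⟨L, K, hL, hK0, ?_⟩
  have key : ∀ J : ℕ, Tprop V (2 ^ J * L) (K * Real.exp (-(4 * (1 / 2) ^ J)) * 64 ^ J) := by
    intro J
    induction J with
    | zero =>
      simp only [pow_zero, one_mul, mul_one]
      apply Tprop_mono hT0
      rw [hK, mul_assoc, mul_comm (C0 + 2 * X), ← mul_assoc, ← Real.exp_add]
      norm_num
      positivity
    | succ J ih =>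
      set c := K * Real.exp (-(4 * (1 / 2) ^ J)) with hc
      set r : ℝ := (1 / 2) ^ J with hr
      have hr0 : 0 < r := by positivity
      have hr1 : r ≤ 1 := pow_le_one₀ (by norm_num) (by norm_num)
      have hstep := T_step (s := 2 ^ J * L) (C := c * 64 ^ J) (by positivity) (by positivity) ih hr0
      have e1 : (2 : ℝ) * (2 ^ J * L) = 2 ^ (J + 1) * L := by ring
      rw [e1] at hstep
      apply Tprop_mono hstep
      have hrinv : r⁻¹ = 2 ^ J := by rw [hr]; simp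
      have h4 : (4 : ℝ) ^ J * r ^ 4 = r ^ 2 := by
        have : (4 : ℝ) ^ J * r ^ 2 = 1 := by
          rw [hr, ← pow_mul, mul_comm J 2, pow_mul, ← mul_pow]; norm_num
        calc (4 : ℝ) ^ J * r ^ 4 = (4 ^ J * r ^ 2) * r ^ 2 := by ring
          _ = r ^ 2 := by rw [this, one_mul]
      have h64 : (64 : ℝ) ^ J * r ^ 6 = 1 := by
        rw [hr, ← pow_mul, mul_comm J 6, pow_mul, ← mul_pow]; norm_num
      -- lower bound on c
      have hclow : 2 * X ≤ c := by
        have h5 : Real.exp (-4) ≤ Real.exp (-(4 * r)) := Real.exp_le_exp.2 (by linarith)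
        have h6 : K * Real.exp (-4) = C0 + 2 * X := by
          rw [hK, mul_assoc, mul_comm (C0 + 2 * X), ← mul_assoc, ← Real.exp_add]; norm_num
        calc 2 * X ≤ K * Real.exp (-4) := by rw [h6]; linarith
          _ ≤ c := by rw [hc]; gcongr
      have hc0 : 0 < c := by positivity
      -- the recursion
      have hrec : (1 + r) * c + (1 + r⁻¹) * X * r ^ 4 ≤ c * (1 + 2 * r) := by
        have h7 : (1 + r⁻¹) * X * r ^ 4 ≤ 2 * X * r := by
          have : (1 + r⁻¹) * X * r ^ 4 = X * (r ^ 3 * (r + 1)) := by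
            field_simp
          rw [this]
          have h8 : r ^ 3 * (r + 1) ≤ 2 * r := by
            have h9 : r ^ 3 ≤ r := by
              have : r ^ 3 = r * r ^ 2 := by ring
              rw [this]
              have : r ^ 2 ≤ 1 := pow_le_one₀ hr0.le hr1
              nlinarith
            nlinarith [pow_pos hr0 3]
          nlinarith
        have h8 : 2 * X * r ≤ c * r := by gcongr
        nlinarith
      have hexp : c * (1 + 2 * r) ≤ K * Real.exp (-(4 * (1 / 2) ^ (J + 1))) := by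
        have h9 : 1 + 2 * r ≤ Real.exp (2 * r) := by linarith [Real.add_one_le_exp (2 * r)]
        have h10 : K * Real.exp (-(4 * (1 / 2) ^ (J + 1))) = c * Real.exp (2 * r) := by
          rw [hc, mul_assoc K, ← Real.exp_add]
          congr 2
          rw [pow_succ, ← hr]; ring
        rw [h10]
        gcongr
      have h11 : 64 * ((1 + r) * (c * 64 ^ J) + (1 + r⁻¹) * (147456 * (2 ^ J * L) ^ 2))
          = ((1 + r) * c + (1 + r⁻¹) * X * r ^ 4) * 64 ^ (J + 1) := by
        have e2 : ((2 : ℝ) ^ J * L) ^ 2 = 4 ^ J * L ^ 2 := by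
          rw [mul_pow, ← pow_mul, mul_comm J 2, pow_mul]; norm_num
        have e3 : (r ^ 4 : ℝ) * 64 ^ J = 4 ^ J := by
          have e4 : (4 : ℝ) ^ J * r ^ 2 = 1 := by
            rw [hr, ← pow_mul, mul_comm J 2, pow_mul, ← mul_pow]; norm_num
          have e5 : (64 : ℝ) ^ J = 4 ^ J * 4 ^ J * 4 ^ J := by
            rw [← mul_pow, ← mul_pow]; norm_num
          rw [e5]
          calc r ^ 4 * (4 ^ J * 4 ^ J * 4 ^ J) = (4 ^ J * r ^ 2) ^ 2 * 4 ^ J := by ring
            _ = 4 ^ J := by rw [e4]; ring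
        rw [e2, pow_succ, hX]
        linear_combination (-(64 * (1 + r⁻¹) * (147456 * L ^ 2))) * e3
      rw [h11]
      exact mul_le_mul_of_nonneg_right (hrec.trans hexp) (by positivity)
  intro J
  apply Tprop_mono (key J)
  have h12 : Real.exp (-(4 * (1 / 2) ^ J)) ≤ 1 := by
    rw [Real.exp_le_one_iff]
    have : (0 : ℝ) ≤ (1 / 2) ^ J := by positivity
    linarith
  have : K * Real.exp (-(4 * (1 / 2) ^ J)) ≤ K := by nlinarith
  gcongr

end part4

section part5
variable {N : ℕ}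

def kinE (Φ : (Fin N → E3) → ℂ) (j : Fin N) (x : Fin N → E3) : ℝ :=
  ∑ k : Fin 3, ‖fderiv ℝ Φ x (Pi.single j (ek k))‖ ^ 2

lemma kinE_nonneg (Φ : (Fin N → E3) → ℂ) (j : Fin N) (x : Fin N → E3) : 0 ≤ kinE Φ j x := by
  unfold kinE; positivity

lemma kinE_cont {Φ : (Fin N → E3) → ℂ} (hΦ : ContDiff ℝ 1 Φ) (j : Fin N) : Continuous (kinE Φ j) := by
  have h1 : Continuous (fderiv ℝ Φ) := hΦ.continuous_fderiv (by norm_num)
  unfold kinE
  apply continuous_finsetSum
  intro k _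
  exact (h1.clm_apply continuous_const).norm.pow 2

/-- insertion of three coordinates -/
def upd (i j k : Fin N) (x : Fin N → E3) (z : F9) : Fin N → E3 :=
  Function.update (Function.update (Function.update x i z.1) j z.2.1) k z.2.2

def Lin (i j k : Fin N) : F9 →L[ℝ] (Fin N → E3) :=
  (ContinuousLinearMap.single ℝ (fun _ : Fin N => E3) i).comp (ContinuousLinearMap.fst ℝ E3 (E3 × E3)) +
  (ContinuousLinearMap.single ℝ (fun _ : Fin N => E3) j).comp
    ((ContinuousLinearMap.fst ℝ E3 E3).comp (ContinuousLinearMap.snd ℝ E3 (E3 × E3))) +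
  (ContinuousLinearMap.single ℝ (fun _ : Fin N => E3) k).comp
    ((ContinuousLinearMap.snd ℝ E3 E3).comp (ContinuousLinearMap.snd ℝ E3 (E3 × E3)))

lemma Lin_apply (i j k : Fin N) (z : F9) :
    Lin i j k z = Pi.single i z.1 + Pi.single j z.2.1 + Pi.single k z.2.2 := rfl

lemma upd_eq {i j k : Fin N} (hij : i ≠ j) (hik : i ≠ k) (hjk : j ≠ k) (x : Fin N → E3) (z : F9) :
    upd i j k x z = upd i j k x 0 + Lin i j k z := by
  funext l
  rw [Lin_apply]
  unfold upd
  simp only [Pi.add_apply]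
  by_cases h1 : l = k
  · subst h1
    simp [hik.symm, hjk.symm]
  · by_cases h2 : l = j
    · subst h2
      simp [h1, hij.symm]
    · by_cases h3 : l = i
      · subst h3
        simp [h1, h2]
      · simp [h1, h2, h3]

lemma upd_i {i j k : Fin N} (hij : i ≠ j) (hik : i ≠ k) (x : Fin N → E3) (z : F9) :
    upd i j k x z i = z.1 := by
  unfold upd; simp [hij, hik]

lemma upd_j {i j k : Fin N} (hjk : j ≠ k) (x : Fin N → E3) (z : F9) :
    upd i j k x z j = z.2.1 := by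
  unfold upd; simp [hjk]

lemma upd_k {i j k : Fin N} (x : Fin N → E3) (z : F9) : upd i j k x z k = z.2.2 := by
  unfold upd; simp

lemma upd_other {i j k l : Fin N} (hi : l ≠ i) (hj : l ≠ j) (hk : l ≠ k) (x : Fin N → E3) (z : F9) :
    upd i j k x z l = x l := by
  unfold upd; simp [hi, hj, hk]

lemma upd_hasFDerivAt {i j k : Fin N} (hij : i ≠ j) (hik : i ≠ k) (hjk : j ≠ k) (x : Fin N → E3)
    (z : F9) : HasFDerivAt (upd i j k x) (Lin i j k) z := by
  have h : upd i j k x = fun z => upd i j k x 0 + Lin i j k z := by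
    funext z; exact upd_eq hij hik hjk x z
  rw [h]
  exact (Lin i j k).hasFDerivAt.const_add _

lemma upd_contDiff {i j k : Fin N} (hij : i ≠ j) (hik : i ≠ k) (hjk : j ≠ k) (x : Fin N → E3) :
    ContDiff ℝ 1 (upd i j k x) := by
  have h : upd i j k x = fun z => upd i j k x 0 + Lin i j k z := by
    funext z; exact upd_eq hij hik hjk x z
  rw [h]
  exact contDiff_const.add (Lin i j k).contDiff

lemma upd_fderiv {Φ : (Fin N → E3) → ℂ} (hΦ : ContDiff ℝ 1 Φ) {i j k : Fin N} (hij : i ≠ j)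
    (hik : i ≠ k) (hjk : j ≠ k) (x : Fin N → E3) (z h : F9) :
    fderiv ℝ (fun z => Φ (upd i j k x z)) z h = fderiv ℝ Φ (upd i j k x z) (Lin i j k h) := by
  have h1 : HasFDerivAt Φ (fderiv ℝ Φ (upd i j k x z)) (upd i j k x z) :=
    ((hΦ.differentiable (by norm_num)) _).hasFDerivAt
  have h2 := h1.comp z (upd_hasFDerivAt hij hik hjk x z)
  have h3 : fderiv ℝ (fun z => Φ (upd i j k x z)) z
      = (fderiv ℝ Φ (upd i j k x z)).comp (Lin i j k) := h2.fderiv
  rw [h3]; rfl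

lemma K9_upd {Φ : (Fin N → E3) → ℂ} (hΦ : ContDiff ℝ 1 Φ) {i j k : Fin N} (hij : i ≠ j)
    (hik : i ≠ k) (hjk : j ≠ k) (x : Fin N → E3) (z : F9) :
    K9 (fun z => Φ (upd i j k x z)) z = kinE Φ i (upd i j k x z) + kinE Φ j (upd i j k x z)
      + kinE Φ k (upd i j k x z) := by
  unfold K9 kinE
  rw [← Finset.sum_add_distrib, ← Finset.sum_add_distrib]
  apply Finset.sum_congr rfl
  intro m _
  rw [upd_fderiv hΦ hij hik hjk, upd_fderiv hΦ hij hik hjk, upd_fderiv hΦ hij hik hjk]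
  simp only [Lin_apply, Pi.single_zero, add_zero, zero_add]

/-- triple density -/
def g3 (V : E3 → E3 → ℝ) (Φ : (Fin N → E3) → ℂ) (i j k : Fin N) (x : Fin N → E3) : ℝ≥0∞ :=
  ENNReal.ofReal (kinE Φ i x) + ENNReal.ofReal (kinE Φ j x) + ENNReal.ofReal (kinE Φ k x)
    + ENNReal.ofReal (V (x i - x j) (x i - x k)) * ‖Φ x‖ₑ ^ 2

lemma G9_upd {V : E3 → E3 → ℝ} {Φ : (Fin N → E3) → ℂ} (hΦ : ContDiff ℝ 1 Φ) {i j k : Fin N} (hij : i ≠ j)
    (hik : i ≠ k) (hjk : j ≠ k) (x : Fin N → E3) (z : F9) :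
    G9 V (fun z => Φ (upd i j k x z)) z = g3 V Φ i j k (upd i j k x z) := by
  unfold G9 g3
  rw [K9_upd hΦ hij hik hjk, ENNReal.ofReal_add (add_nonneg (kinE_nonneg _ _ _) (kinE_nonneg _ _ _))
    (kinE_nonneg _ _ _), ENNReal.ofReal_add (kinE_nonneg _ _ _) (kinE_nonneg _ _ _),
    upd_i hij hik, upd_j hjk, upd_k]

lemma V_meas' {V : E3 → E3 → ℝ} (hV : Measurable (fun p : E3 × E3 => V p.1 p.2)) (i j k : Fin N) :
    Measurable (fun x : Fin N → E3 => V (x i - x j) (x i - x k)) := by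
  have h1 : Measurable (fun x : Fin N → E3 => ((x i - x j, x i - x k) : E3 × E3)) := by fun_prop
  exact hV.comp h1

lemma g3_meas {V : E3 → E3 → ℝ} (hV : Measurable (fun p : E3 × E3 => V p.1 p.2))
    {Φ : (Fin N → E3) → ℂ} (hΦ : ContDiff ℝ 1 Φ) (i j k : Fin N) : Measurable (g3 V Φ i j k) := by
  unfold g3
  have h1 := fun l => (kinE_cont hΦ l).measurable
  have h2 := V_meas' hV i j k
  have h3 : Measurable Φ := hΦ.continuous.measurable
  have h4 : Measurable (fun x => ‖Φ x‖ₑ ^ 2) := by fun_prop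
  exact (((ENNReal.measurable_ofReal.comp (h1 i)).add (ENNReal.measurable_ofReal.comp (h1 j))).add
    (ENNReal.measurable_ofReal.comp (h1 k))).add ((ENNReal.measurable_ofReal.comp h2).mul h4)

lemma lmarginal_triple {f : (Fin N → E3) → ℝ≥0∞} (hf : Measurable f) {i j k : Fin N} (hij : i ≠ j)
    (hik : i ≠ k) (hjk : j ≠ k) (x : Fin N → E3) :
    lmarginal (fun _ => (volume : Measure E3)) ({i, j, k} : Finset (Fin N)) f x
      = ∫⁻ z : F9, f (upd i j k x z) := by
  have hm : Measurable (fun z : F9 => f (upd i j k x z)) :=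
    hf.comp (upd_contDiff hij hik hjk x).continuous.measurable
  rw [lmarginal_insert _ hf (by simp [hij, hik])]
  have h1 : ∀ u : E3, lmarginal (fun _ => (volume : Measure E3)) ({j, k} : Finset (Fin N)) f
      (Function.update x i u) = ∫⁻ v : E3, ∫⁻ w : E3, f (upd i j k x (u, v, w)) := by
    intro u
    rw [lmarginal_insert _ hf (by simp [hjk])]
    congr 1; ext v
    rw [lmarginal_singleton]
    rfl
  simp_rw [h1]
  rw [Measure.volume_eq_prod, lintegral_prod _ hm.aemeasurable]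
  congr 1; ext u
  rw [Measure.volume_eq_prod, lintegral_prod]
  exact (hm.comp (by fun_prop : Measurable fun q : E3 × E3 => ((u, q) : F9))).aemeasurable

lemma mem_pi_upd {C : Fin N → Set E3} {Q : Set E3} {i j k : Fin N} (hij : i ≠ j)
    (hik : i ≠ k) (hjk : j ≠ k) (hi : C i = Q) (hj : C j = Q) (hk : C k = Q) (x : Fin N → E3) (z : F9) :
    upd i j k x z ∈ Set.univ.pi C ↔ z ∈ box Q ∧ ∀ l, l ≠ i → l ≠ j → l ≠ k → x l ∈ C l := by
  simp only [Set.mem_pi, Set.mem_univ, forall_true_left, box, Set.mem_prod]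
  constructor
  · intro h
    refine ⟨⟨?_, ?_, ?_⟩, ?_⟩
    · have := h i; rwa [upd_i hij hik, hi] at this
    · have := h j; rwa [upd_j hjk, hj] at this
    · have := h k; rwa [upd_k, hk] at this
    · intro l h1 h2 h3
      have := h l; rwa [upd_other h1 h2 h3] at this
  · rintro ⟨⟨h1, h2, h3⟩, h4⟩ l
    by_cases e1 : l = i
    · subst e1; rw [upd_i hij hik, hi]; exact h1
    · by_cases e2 : l = j
      · subst e2; rw [upd_j hjk, hj]; exact h2
      · by_cases e3 : l = k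
        · subst e3; rw [upd_k, hk]; exact h3
        · rw [upd_other e1 e2 e3]; exact h4 l e1 e2 e3

lemma triple_bound {V : E3 → E3 → ℝ} (hV : Measurable (fun p : E3 × E3 => V p.1 p.2))
    {s c : ℝ} (hT : Tprop V s c) {Φ : (Fin N → E3) → ℂ}
    (hΦ : ContDiff ℝ 1 Φ) {i j k : Fin N} (hij : i ≠ j) (hik : i ≠ k) (hjk : j ≠ k)
    {C : Fin N → Set E3} (hC : ∀ l, MeasurableSet (C l)) {p : Fin 3 → ℝ} (hi : C i = cube p s)
    (hj : C j = cube p s) (hk : C k = cube p s) :
    ∫⁻ x in Set.univ.pi C, ‖Φ x‖ₑ ^ 2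
      ≤ ENNReal.ofReal c * ∫⁻ x in Set.univ.pi C, g3 V Φ i j k x := by
  have hB : MeasurableSet (Set.univ.pi C) := MeasurableSet.univ_pi hC
  have hΦm : Measurable Φ := hΦ.continuous.measurable
  have hm1 : Measurable (fun x => ‖Φ x‖ₑ ^ 2) := by fun_prop
  have hm2 := g3_meas hV hΦ i j k
  rw [← lintegral_const_mul _ hm2, ← lintegral_indicator hB, ← lintegral_indicator hB]
  have hf : Measurable ((Set.univ.pi C).indicator fun x => ‖Φ x‖ₑ ^ 2) := hm1.indicator hB
  have hg : Measurable ((Set.univ.pi C).indicator fun x => ENNReal.ofReal c * g3 V Φ i j k x) :=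
    (hm2.const_mul _).indicator hB
  have key := lmarginal_le_of_subset (μ := fun _ : Fin N => (volume : Measure E3))
    (s := ({i, j, k} : Finset (Fin N))) (t := Finset.univ) (Finset.subset_univ _) hf hg ?_
  · have h0 := key 0
    rw [lmarginal_univ, lmarginal_univ] at h0
    exact h0
  · intro x
    rw [lmarginal_triple hf hij hik hjk, lmarginal_triple hg hij hik hjk]
    by_cases hR : ∀ l, l ≠ i → l ≠ j → l ≠ k → x l ∈ C l
    · have e1 : ∀ z, (Set.univ.pi C).indicator (fun x => ‖Φ x‖ₑ ^ 2) (upd i j k x z)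
          = (box (cube p s)).indicator (fun z => ‖Φ (upd i j k x z)‖ₑ ^ 2) z := by
        intro z
        have hmem := mem_pi_upd hij hik hjk hi hj hk x z
        by_cases hz : z ∈ box (cube p s)
        · rw [indicator_of_mem hz, indicator_of_mem (hmem.2 ⟨hz, hR⟩)]
        · rw [indicator_of_notMem hz, indicator_of_notMem (fun h => hz (hmem.1 h).1)]
      have e2 : ∀ z, (Set.univ.pi C).indicator (fun x => ENNReal.ofReal c * g3 V Φ i j k x) (upd i j k x z)
          = (box (cube p s)).indicator (fun z => ENNReal.ofReal c *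
            G9 V (fun z => Φ (upd i j k x z)) z) z := by
        intro z
        have hmem := mem_pi_upd hij hik hjk hi hj hk x z
        by_cases hz : z ∈ box (cube p s)
        · rw [indicator_of_mem hz, indicator_of_mem (hmem.2 ⟨hz, hR⟩), G9_upd hΦ hij hik hjk]
        · rw [indicator_of_notMem hz, indicator_of_notMem (fun h => hz (hmem.1 h).1)]
      simp_rw [e1, e2]
      have hQ := measurableSet_box (measurableSet_cube p s)
      rw [lintegral_indicator hQ, lintegral_indicator hQ, lintegral_const_mul]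
      · exact hT p (fun z => Φ (upd i j k x z)) (hΦ.comp (upd_contDiff hij hik hjk x))
      · have h5 : (G9 V (fun z => Φ (upd i j k x z)))
            = fun z => g3 V Φ i j k (upd i j k x z) := by
          funext z; exact G9_upd hΦ hij hik hjk x z
        rw [h5]
        exact hm2.comp (upd_contDiff hij hik hjk x).continuous.measurable
    · have e1 : ∀ z, (Set.univ.pi C).indicator (fun x => ‖Φ x‖ₑ ^ 2) (upd i j k x z) = 0 := by
        intro z
        rw [indicator_of_notMem (fun h => hR ((mem_pi_upd hij hik hjk hi hj hk x z).1 h).2)]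
      simp_rw [e1]
      simp

end part5

section part6
variable {N : ℕ}

def trip (s : Finset (Fin N)) : Finset (Fin N × Fin N × Fin N) :=
  (s ×ˢ (s ×ˢ s)).filter (fun t => t.1 < t.2.1 ∧ t.2.1 < t.2.2)

lemma mem_trip {s : Finset (Fin N)} {t : Fin N × Fin N × Fin N} :
    t ∈ trip s ↔ (t.1 ∈ s ∧ t.2.1 ∈ s ∧ t.2.2 ∈ s) ∧ t.1 < t.2.1 ∧ t.2.1 < t.2.2 := by
  simp only [trip, Finset.mem_filter, Finset.mem_product]

/-- the density of kinetic and three body energy of the particles in `s` -/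
def dens (V : E3 → E3 → ℝ) (Φ : (Fin N → E3) → ℂ) (s : Finset (Fin N)) (x : Fin N → E3) : ℝ≥0∞ :=
  ∑ j ∈ s, ENNReal.ofReal (kinE Φ j x)
    + ∑ t ∈ trip s, ENNReal.ofReal (V (x t.1 - x t.2.1) (x t.1 - x t.2.2)) * ‖Φ x‖ₑ ^ 2

lemma dens_mono (V : E3 → E3 → ℝ) (Φ : (Fin N → E3) → ℂ) {s t : Finset (Fin N)} (h : s ⊆ t)
    (x : Fin N → E3) : dens V Φ s x ≤ dens V Φ t x := by
  unfold dens
  apply add_le_add
  · exact Finset.sum_le_sum_of_subset h
  · apply Finset.sum_le_sum_of_subset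
    intro a ha
    rw [mem_trip] at ha ⊢
    exact ⟨⟨h ha.1.1, h ha.1.2.1, h ha.1.2.2⟩, ha.2⟩

lemma dens_union (V : E3 → E3 → ℝ) (Φ : (Fin N → E3) → ℂ) {s t : Finset (Fin N)} (h : Disjoint s t)
    (x : Fin N → E3) : dens V Φ s x + dens V Φ t x ≤ dens V Φ (s ∪ t) x := by
  unfold dens
  have h1 : Disjoint (trip s) (trip t) := by
    rw [Finset.disjoint_left]
    intro a ha hb
    rw [mem_trip] at ha hb
    exact Finset.disjoint_left.1 h ha.1.1 hb.1.1
  have h2 : trip s ∪ trip t ⊆ trip (s ∪ t) := by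
    intro a ha
    rw [Finset.mem_union, mem_trip, mem_trip] at ha
    rw [mem_trip]
    simp only [Finset.mem_union]
    tauto
  rw [Finset.sum_union h]
  calc _ = ∑ j ∈ s, ENNReal.ofReal (kinE Φ j x) + ∑ j ∈ t, ENNReal.ofReal (kinE Φ j x)
        + ∑ t ∈ trip s ∪ trip t, ENNReal.ofReal (V (x t.1 - x t.2.1) (x t.1 - x t.2.2)) * ‖Φ x‖ₑ ^ 2 := by
        rw [Finset.sum_union h1]; ring
    _ ≤ _ := by
        gcongr

lemma dens_meas {V : E3 → E3 → ℝ} (hV : Measurable (fun p : E3 × E3 => V p.1 p.2))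
    {Φ : (Fin N → E3) → ℂ} (hΦ : ContDiff ℝ 1 Φ) (s : Finset (Fin N)) : Measurable (dens V Φ s) := by
  unfold dens
  have h3 : Measurable Φ := hΦ.continuous.measurable
  have h4 : Measurable (fun x => ‖Φ x‖ₑ ^ 2) := by fun_prop
  apply Measurable.add
  · apply Finset.measurable_fun_sum
    intro j _
    exact ENNReal.measurable_ofReal.comp (kinE_cont hΦ j).measurable
  · apply Finset.measurable_fun_sum
    intro t _
    exact (ENNReal.measurable_ofReal.comp (V_meas' hV _ _ _)).mul h4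

lemma dens_colors (V : E3 → E3 → ℝ) (Φ : (Fin N → E3) → ℂ) (s : Finset (Fin N)) {γ : Type*}
    [DecidableEq γ] (col : Fin N → γ) (Γ : Finset γ) (x : Fin N → E3) :
    ∑ c ∈ Γ, dens V Φ (s.filter (fun j => col j = c)) x ≤ dens V Φ (s.filter (fun j => col j ∈ Γ)) x := by
  induction Γ using Finset.induction_on with
  | empty => simp
  | insert c Γ hc ih =>
    rw [Finset.sum_insert hc]
    have hdisj : Disjoint (s.filter (fun j => col j = c)) (s.filter (fun j => col j ∈ Γ)) := by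
      rw [Finset.disjoint_left]
      intro a ha hb
      rw [Finset.mem_filter] at ha hb
      rw [ha.2] at hb
      exact hc hb.2
    calc _ ≤ dens V Φ (s.filter (fun j => col j = c)) x + dens V Φ (s.filter (fun j => col j ∈ Γ)) x := by
          gcongr
      _ ≤ _ := dens_union V Φ hdisj x
      _ ≤ _ := by
          apply dens_mono
          intro a ha
          rw [Finset.mem_union, Finset.mem_filter, Finset.mem_filter] at ha
          rw [Finset.mem_filter, Finset.mem_insert]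
          tauto

/-- triple inside a finset -/
lemma g3_le_dens (V : E3 → E3 → ℝ) (Φ : (Fin N → E3) → ℂ) {i j k : Fin N} (hij : i < j) (hjk : j < k)
    (x : Fin N → E3) : g3 V Φ i j k x ≤ dens V Φ {i, j, k} x := by
  unfold g3 dens
  have h1 : i ∉ ({j, k} : Finset (Fin N)) := by
    simp only [Finset.mem_insert, Finset.mem_singleton, not_or]
    exact ⟨hij.ne, (hij.trans hjk).ne⟩
  have h2 : j ∉ ({k} : Finset (Fin N)) := by simpa using hjk.ne
  rw [Finset.sum_insert h1, Finset.sum_insert h2, Finset.sum_singleton]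
  apply add_le_add
  · rw [add_assoc]
  · have h3 : (i, j, k) ∈ trip ({i, j, k} : Finset (Fin N)) := by
      rw [mem_trip]; simp [hij, hjk]
    exact Finset.single_le_sum
      (f := fun t : Fin N × Fin N × Fin N =>
        ENNReal.ofReal (V (x t.1 - x t.2.1) (x t.1 - x t.2.2)) * ‖Φ x‖ₑ ^ 2)
      (fun _ _ => zero_le) h3

lemma exists_triple {s : Finset (Fin N)} (h : 3 ≤ s.card) :
    ∃ i j k : Fin N, i < j ∧ j < k ∧ ({i, j, k} : Finset (Fin N)) ⊆ s := by
  obtain ⟨t, hts, htc⟩ := Finset.exists_subset_card_eq h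
  have e := t.orderEmbOfFin htc
  refine ⟨t.orderEmbOfFin htc 0, t.orderEmbOfFin htc 1, t.orderEmbOfFin htc 2, ?_, ?_, ?_⟩
  · exact (t.orderEmbOfFin htc).strictMono (by decide)
  · exact (t.orderEmbOfFin htc).strictMono (by decide)
  · intro a ha
    simp only [Finset.mem_insert, Finset.mem_singleton] at ha
    rcases ha with rfl | rfl | rfl <;> exact hts (Finset.orderEmbOfFin_mem _ _ _)

variable {V : E3 → E3 → ℝ} (hV : Measurable (fun p : E3 × E3 => V p.1 p.2))
  {Φ : (Fin N → E3) → ℂ} (hΦ : ContDiff ℝ 1 Φ)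

include hV hΦ

lemma mono_bound {r c : ℝ} (hT : Tprop V r c) {C : Fin N → Set E3} (hC : ∀ l, MeasurableSet (C l))
    {p : Fin 3 → ℝ} (s : Finset (Fin N)) (hs : ∀ j ∈ s, C j = cube p r) :
    (s.card : ℝ≥0∞) * ∫⁻ x in Set.univ.pi C, ‖Φ x‖ₑ ^ 2
      ≤ 3 * ENNReal.ofReal c * (∫⁻ x in Set.univ.pi C, dens V Φ s x)
        + 2 * ∫⁻ x in Set.univ.pi C, ‖Φ x‖ₑ ^ 2 := by
  induction s using Finset.strongInduction with
  | H s ih =>
    rcases lt_or_ge s.card 3 with h | h
    · have h1 : (s.card : ℝ≥0∞) ≤ 2 := by exact_mod_cast Nat.lt_succ_iff.1 h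
      calc _ ≤ 2 * ∫⁻ x in Set.univ.pi C, ‖Φ x‖ₑ ^ 2 := by gcongr
        _ ≤ _ := le_add_self
    · obtain ⟨i, j, k, hij, hjk, hsub⟩ := exists_triple h
      have hik := hij.trans hjk
      have hi : i ∈ s := hsub (by simp)
      have hj : j ∈ s := hsub (by simp)
      have hk : k ∈ s := hsub (by simp)
      set t : Finset (Fin N) := {i, j, k} with ht
      have hcard : t.card = 3 := by
        rw [ht, Finset.card_eq_three]
        exact ⟨i, j, k, hij.ne, hik.ne, hjk.ne, rfl⟩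
      have hss : s \ t ⊂ s := by
        refine Finset.ssubset_iff_subset_ne.2 ⟨Finset.sdiff_subset, fun he => ?_⟩
        have : i ∈ s \ t := by rw [he]; exact hi
        rw [Finset.mem_sdiff] at this
        exact this.2 (by rw [ht]; simp)
      have hrec := ih (s \ t) hss (fun l hl => hs l (Finset.sdiff_subset hl))
      have hcard2 : s.card = (s \ t).card + 3 := by
        rw [Finset.card_sdiff_of_subset hsub, hcard]; omega
      have htri := triple_bound hV hT hΦ hij.ne hik.ne hjk.ne hC (hs i hi) (hs j hj) (hs k hk)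
      have hg : ∫⁻ x in Set.univ.pi C, g3 V Φ i j k x ≤ ∫⁻ x in Set.univ.pi C, dens V Φ t x :=
        lintegral_mono fun x => g3_le_dens V Φ hij hjk x
      have hsum : (∫⁻ x in Set.univ.pi C, dens V Φ t x) + (∫⁻ x in Set.univ.pi C, dens V Φ (s \ t) x)
          ≤ ∫⁻ x in Set.univ.pi C, dens V Φ s x := by
        rw [← lintegral_add_left (dens_meas hV hΦ t)]
        apply lintegral_mono
        intro x
        have h1 := dens_union V Φ (s := t) (t := s \ t) Finset.disjoint_sdiff x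
        rwa [Finset.union_sdiff_of_subset hsub] at h1
      set I := ∫⁻ x in Set.univ.pi C, ‖Φ x‖ₑ ^ 2
      calc (s.card : ℝ≥0∞) * I = 3 * I + ((s \ t).card : ℝ≥0∞) * I := by
            rw [hcard2]; push_cast; ring
        _ ≤ 3 * (ENNReal.ofReal c * ∫⁻ x in Set.univ.pi C, dens V Φ t x)
            + (3 * ENNReal.ofReal c * (∫⁻ x in Set.univ.pi C, dens V Φ (s \ t) x) + 2 * I) := by
            gcongr
            exact htri.trans (by gcongr)
        _ = 3 * ENNReal.ofReal c * ((∫⁻ x in Set.univ.pi C, dens V Φ t x)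
              + (∫⁻ x in Set.univ.pi C, dens V Φ (s \ t) x)) + 2 * I := by ring
        _ ≤ _ := by gcongr

end part6

section part7
variable {N : ℕ}

lemma lintegral_partition {γ : Type*} [Countable γ] {t : Fin N → γ → Set E3}
    (hm : ∀ j c, MeasurableSet (t j c)) (hd : ∀ j c c', c ≠ c' → Disjoint (t j c) (t j c'))
    (f : (Fin N → E3) → ℝ≥0∞) :
    ∫⁻ x in Set.univ.pi (fun j => ⋃ c, t j c), f x
      = ∑' K : Fin N → γ, ∫⁻ x in Set.univ.pi (fun j => t j (K j)), f x := by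
  have h1 : Set.univ.pi (fun j => ⋃ c, t j c) = ⋃ K : Fin N → γ, Set.univ.pi (fun j => t j (K j)) := by
    ext x
    simp only [Set.mem_pi, Set.mem_univ, forall_true_left, mem_iUnion]
    exact Classical.skolem
  rw [h1, lintegral_iUnion]
  · intro K
    exact MeasurableSet.univ_pi fun j => hm j _
  · intro K K' hK
    obtain ⟨j, hj⟩ := Function.ne_iff.1 hK
    show Disjoint _ _
    rw [Set.disjoint_left]
    intro x hx hx'
    exact Set.disjoint_left.1 (hd j _ _ hj) (hx j (mem_univ _)) (hx' j (mem_univ _))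

lemma card_colors (n : ℕ) : Fintype.card (Fin 3 → Fin n) = n ^ 3 := by simp

variable {V : E3 → E3 → ℝ} (hV : Measurable (fun p : E3 × E3 => V p.1 p.2))
  {Φ : (Fin N → E3) → ℂ} (hΦ : ContDiff ℝ 1 Φ)

include hV hΦ

lemma refine_bound {r c : ℝ} (hr : 0 < r) (hT : Tprop V r c) {n : ℕ} (hn : 0 < n)
    {C : Fin N → Set E3} (hC : ∀ l, MeasurableSet (C l))
    {p : Fin 3 → ℝ} (s : Finset (Fin N)) (hs : ∀ j ∈ s, C j = cube p (n * r)) :
    (s.card : ℝ≥0∞) * ∫⁻ x in Set.univ.pi C, ‖Φ x‖ₑ ^ 2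
      ≤ 3 * ENNReal.ofReal c * (∫⁻ x in Set.univ.pi C, dens V Φ s x)
        + 2 * (n : ℝ≥0∞) ^ 3 * ∫⁻ x in Set.univ.pi C, ‖Φ x‖ₑ ^ 2 := by
  classical
  let κ0 : Fin 3 → Fin n := fun _ => ⟨0, hn⟩
  let t : Fin N → (Fin 3 → Fin n) → Set E3 := fun j κ =>
    if j ∈ s then sub p r κ else if κ = κ0 then C j else ∅
  have ht : ∀ j, C j = ⋃ κ, t j κ := by
    intro j
    by_cases hj : j ∈ s
    · simp only [t, hj, if_true]
      rw [hs j hj, cube_eq_iUnion p hr n]
    · simp only [t, hj, if_false]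
      ext x
      simp only [mem_iUnion]
      constructor
      · intro hx
        exact ⟨κ0, by simpa using hx⟩
      · rintro ⟨κ, hκ⟩
        by_cases h : κ = κ0
        · simpa [h] using hκ
        · simp [h] at hκ
  have htm : ∀ j κ, MeasurableSet (t j κ) := by
    intro j κ
    simp only [t]
    split_ifs
    · exact measurableSet_cube _ _
    · exact hC j
    · exact MeasurableSet.empty
  have htd : ∀ j κ κ', κ ≠ κ' → Disjoint (t j κ) (t j κ') := by
    intro j κ κ' h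
    by_cases hj : j ∈ s
    · simp only [t, hj, if_true]
      exact sub_disjoint p hr h
    · simp only [t, hj, if_false]
      by_cases h1 : κ = κ0
      · have h2 : κ' ≠ κ0 := fun h3 => h (h1.trans h3.symm)
        simp [h1, h2]
      · simp [h1]
  have hCt : C = fun j => ⋃ κ, t j κ := funext ht
  rw [hCt, lintegral_partition htm htd, lintegral_partition htm htd]
  rw [← ENNReal.tsum_mul_left, ← ENNReal.tsum_mul_left, ← ENNReal.tsum_mul_left, ← ENNReal.tsum_add]
  apply ENNReal.tsum_le_tsum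
  intro K
  set B := Set.univ.pi (fun j => t j (K j)) with hB
  have key : ∀ κ : Fin 3 → Fin n, ((s.filter (fun j => K j = κ)).card : ℝ≥0∞) * ∫⁻ x in B, ‖Φ x‖ₑ ^ 2
      ≤ 3 * ENNReal.ofReal c * (∫⁻ x in B, dens V Φ (s.filter (fun j => K j = κ)) x)
        + 2 * ∫⁻ x in B, ‖Φ x‖ₑ ^ 2 := by
    intro κ
    apply mono_bound (p := fun k => p k + r * (κ k : ℝ)) hV hΦ hT (fun l => htm l _)
    intro j hj
    rw [Finset.mem_filter] at hj
    simp only [t, hj.1, if_true, hj.2]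
    rfl
  have h1 : (s.card : ℝ≥0∞) = ∑ κ : Fin 3 → Fin n, ((s.filter (fun j => K j = κ)).card : ℝ≥0∞) := by
    rw [← Nat.cast_sum]
    congr 1
    exact Finset.card_eq_sum_card_fiberwise (fun j _ => Finset.mem_coe.2 (Finset.mem_univ _))
  rw [h1, Finset.sum_mul]
  refine (Finset.sum_le_sum fun κ _ => key κ).trans ?_
  rw [Finset.sum_add_distrib, ← Finset.mul_sum, Finset.sum_const, Finset.card_univ, card_colors]
  apply add_le_add
  · gcongr
    rw [← lintegral_finsetSum _ (fun κ _ => dens_meas hV hΦ _)]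
    apply lintegral_mono
    intro x
    refine (dens_colors V Φ s K Finset.univ x).trans ?_
    apply dens_mono
    exact Finset.filter_subset _ _
  · rw [nsmul_eq_mul]
    push_cast
    apply le_of_eq
    ring

end part7

section part8
variable {N : ℕ}

/-- coarse cells -/
def cell (ρ : ℝ) (κ : Fin 3 → ℤ) : Set E3 := cube (fun k => ρ * (κ k : ℝ)) ρ

lemma cell_cover {ρ : ℝ} (hρ : 0 < ρ) : (⋃ κ, cell ρ κ) = Set.univ := by
  ext x
  simp only [mem_iUnion, mem_univ, iff_true, cell, mem_cube]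
  refine ⟨fun k => ⌊x k / ρ⌋, fun k => ?_⟩
  have h1 := Int.floor_le (x k / ρ)
  have h2 := Int.lt_floor_add_one (x k / ρ)
  rw [le_div_iff₀ hρ] at h1
  rw [div_lt_iff₀ hρ] at h2
  constructor <;> linarith

lemma cell_near {ρ : ℝ} (hρ : 0 < ρ) {κ κ' : Fin 3 → ℤ} {x y : E3} (hx : x ∈ cell ρ κ)
    (hy : y ∈ cell ρ κ') (hxy : ‖x - y‖ ≤ ρ) (k : Fin 3) : |κ k - κ' k| ≤ 1 := by
  have h1 := hx k
  have h2 := hy k
  simp only at h1 h2
  have h3 : |x k - y k| ≤ ρ := by
    have := PiLp.norm_apply_le (x - y) k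
    rw [Real.norm_eq_abs] at this
    exact this.trans hxy
  rw [abs_le] at h3
  have h4 : ((κ k : ℤ) : ℝ) - κ' k < 2 := by
    by_contra hc
    push Not at hc
    nlinarith
  have h5 : ((κ' k : ℤ) : ℝ) - κ k < 2 := by
    by_contra hc
    push Not at hc
    nlinarith
  have h6 : κ k - κ' k < 2 := by exact_mod_cast h4
  have h7 : κ' k - κ k < 2 := by exact_mod_cast h5
  rw [abs_le]
  constructor <;> omega

lemma cell_disjoint {ρ : ℝ} (hρ : 0 < ρ) {κ κ' : Fin 3 → ℤ} (h : κ ≠ κ') :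
    Disjoint (cell ρ κ) (cell ρ κ') := by
  rw [Set.disjoint_left]
  intro x hx hx'
  apply h
  ext k
  have h1 := hx k
  have h2 := hx' k
  simp only at h1 h2
  have h4 : ((κ k : ℤ) : ℝ) - κ' k < 1 := by
    by_contra hc
    push Not at hc
    nlinarith
  have h5 : ((κ' k : ℤ) : ℝ) - κ k < 1 := by
    by_contra hc
    push Not at hc
    nlinarith
  have h6 : κ k - κ' k < 1 := by exact_mod_cast h4
  have h7 : κ' k - κ k < 1 := by exact_mod_cast h5
  omega

def occ (K : Fin N → (Fin 3 → ℤ)) (κ : Fin 3 → ℤ) : Finset (Fin N) :=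
  Finset.univ.filter (fun i => K i = κ)

lemma pairs_shift (K : Fin N → (Fin 3 → ℤ)) (d : Fin 3 → ℤ) :
    (Finset.univ.filter (fun q : Fin N × Fin N => K q.1 = K q.2 + d)).card
      ≤ ∑ κ ∈ Finset.univ.image K, (occ K κ).card ^ 2 := by
  classical
  have h1 : (Finset.univ.filter (fun q : Fin N × Fin N => K q.1 = K q.2 + d)).card
      = ∑ κ ∈ Finset.univ.image K, (occ K κ).card * (occ K (κ + d)).card := by
    rw [Finset.card_eq_sum_card_fiberwise (f := fun q : Fin N × Fin N => K q.2)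
      (t := Finset.univ.image K)]
    · apply Finset.sum_congr rfl
      intro κ _
      rw [mul_comm, ← Finset.card_product]
      congr 1
      ext q
      simp only [Finset.mem_filter, Finset.mem_univ, true_and, Finset.mem_product, occ]
      constructor
      · rintro ⟨h1, h2⟩
        exact ⟨by rw [h1, h2], h2⟩
      · rintro ⟨h1, h2⟩
        exact ⟨by rw [h1, h2], h2⟩
    · intro q _
      simp
  have h2 : ∑ κ ∈ Finset.univ.image K, (occ K (κ + d)).card ^ 2
      ≤ ∑ κ ∈ Finset.univ.image K, (occ K κ).card ^ 2 := by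
    rw [← Finset.sum_image (s := Finset.univ.image K) (g := fun κ => κ + d)
      (f := fun κ => (occ K κ).card ^ 2) (fun a _ b _ h => add_right_cancel h)]
    apply Finset.sum_le_sum_of_ne_zero
    intro κ _ hκ
    have h3 : (occ K κ).card ≠ 0 := by
      intro h; rw [h] at hκ; simp at hκ
    rw [Finset.card_ne_zero] at h3
    obtain ⟨i, hi⟩ := h3
    rw [occ, Finset.mem_filter] at hi
    rw [Finset.mem_image]
    exact ⟨i, Finset.mem_univ _, hi.2⟩
  have h3 : ∀ κ, 2 * ((occ K κ).card * (occ K (κ + d)).card)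
      ≤ (occ K κ).card ^ 2 + (occ K (κ + d)).card ^ 2 := by
    intro κ
    have := two_mul_le_add_sq (occ K κ).card (occ K (κ + d)).card
    linarith
  have h4 := Finset.sum_le_sum (fun κ (_ : κ ∈ Finset.univ.image K) => h3 κ)
  rw [← Finset.mul_sum, Finset.sum_add_distrib, ← h1] at h4
  omega

lemma pairs_near (K : Fin N → (Fin 3 → ℤ)) :
    (Finset.univ.filter (fun q : Fin N × Fin N => ∀ k, |K q.1 k - K q.2 k| ≤ 1)).card
      ≤ 27 * ∑ κ ∈ Finset.univ.image K, (occ K κ).card ^ 2 := by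
  classical
  set D : Finset (Fin 3 → ℤ) := Fintype.piFinset (fun _ => ({-1, 0, 1} : Finset ℤ)) with hD
  have hDc : D.card = 27 := by
    rw [hD, Fintype.card_piFinset]
    simp
  rw [Finset.card_eq_sum_card_fiberwise (f := fun q : Fin N × Fin N => K q.1 - K q.2) (t := D)]
  · calc _ ≤ ∑ d ∈ D, ∑ κ ∈ Finset.univ.image K, (occ K κ).card ^ 2 := by
          apply Finset.sum_le_sum
          intro d _
          refine le_trans (Finset.card_le_card ?_) (pairs_shift K d)
          intro q hq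
          simp only [Finset.mem_filter, Finset.mem_univ, true_and] at hq ⊢
          rw [← hq.2]; abel
      _ = _ := by
          rw [Finset.sum_const, hDc, smul_eq_mul]
  · intro q hq
    simp only [Finset.coe_filter, Finset.mem_univ, true_and, Set.mem_ofPred_eq] at hq
    simp only [hD, Finset.mem_coe, Fintype.mem_piFinset, Pi.sub_apply, Finset.mem_insert,
      Finset.mem_singleton]
    intro k
    have := hq k
    rw [abs_le] at this
    omega

lemma enn_arith {m n : ℕ} {I F : ℝ≥0∞} (hI : I ≠ ⊤) {c A B : ℝ} (hc : 0 < c)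
    (h : (m : ℝ≥0∞) * I ≤ 3 * ENNReal.ofReal c * F + 2 * (n : ℝ≥0∞) ^ 3 * I)
    (h6 : 6 * (n : ℝ) ^ 3 ≤ m) (hA : A ≤ 2 * m / (9 * c) + B) (hB : 0 ≤ B) :
    ENNReal.ofReal A * I ≤ F + ENNReal.ofReal B * I := by
  by_cases hF : F = ⊤
  · rw [hF]; simp
  lift I to ℝ≥0 using hI
  lift F to ℝ≥0 using hF
  have hI0 : (0 : ℝ) ≤ (I : ℝ) := I.2
  have h1 : (m : ℝ) * I ≤ 3 * c * F + 2 * (n : ℝ) ^ 3 * I := by
    have h2 : ENNReal.ofReal ((m : ℝ) * I) ≤ ENNReal.ofReal (3 * c * F + 2 * (n : ℝ) ^ 3 * I) := by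
      rw [ENNReal.ofReal_mul (by positivity), ENNReal.ofReal_add (by positivity) (by positivity),
        ENNReal.ofReal_mul (by positivity), ENNReal.ofReal_mul (by positivity),
        ENNReal.ofReal_mul (by positivity), ENNReal.ofReal_mul (by positivity),
        ENNReal.ofReal_pow (by positivity)]
      simpa using h
    exact (ENNReal.ofReal_le_ofReal_iff (by positivity)).1 h2
  have h3 : 2 * m / (9 * c) * I ≤ (F : ℝ) := by
    rw [div_mul_eq_mul_div, div_le_iff₀ (by positivity)]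
    nlinarith
  have h4 : A * I ≤ F + B * I := by
    calc A * I ≤ (2 * m / (9 * c) + B) * I := by gcongr
      _ = 2 * m / (9 * c) * I + B * I := by ring
      _ ≤ _ := by gcongr
  have h5 := ENNReal.ofReal_le_ofReal h4
  rw [ENNReal.ofReal_add (by positivity) (by positivity), ENNReal.ofReal_mul hB] at h5
  by_cases hA0 : 0 ≤ A
  · rw [ENNReal.ofReal_mul hA0] at h5
    simpa using h5
  · rw [ENNReal.ofReal_of_nonpos (not_le.1 hA0).le]
    simp

variable {V : E3 → E3 → ℝ} (hV : Measurable (fun p : E3 × E3 => V p.1 p.2))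
  {Φ : (Fin N → E3) → ℂ} (hΦ : ContDiff ℝ 1 Φ)

include hV hΦ

lemma color_bound {L c : ℝ} (hL : 0 < L) (hc : 0 < c) (hT : ∀ J : ℕ, Tprop V (2 ^ J * L) (c * 64 ^ J))
    {J : ℕ} {C : Fin N → Set E3} (hC : ∀ l, MeasurableSet (C l)) {p : Fin 3 → ℝ}
    (s : Finset (Fin N)) (hs : ∀ j ∈ s, C j = cube p (2 ^ J * L))
    (hI : ∫⁻ x in Set.univ.pi C, ‖Φ x‖ₑ ^ 2 ≠ ⊤) {A B : ℝ} (hB : 0 ≤ B)
    (hA : A ≤ B ∨ ∃ i ≤ J, 6 * (8 : ℝ) ^ i ≤ s.card ∧
      A ≤ 2 * s.card / (9 * c) * (64 ^ i / 64 ^ J) + B) :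
    ENNReal.ofReal A * ∫⁻ x in Set.univ.pi C, ‖Φ x‖ₑ ^ 2
      ≤ (∫⁻ x in Set.univ.pi C, dens V Φ s x)
        + ENNReal.ofReal B * ∫⁻ x in Set.univ.pi C, ‖Φ x‖ₑ ^ 2 := by
  rcases hA with hA | ⟨i, hi, h6, hA⟩
  · calc _ ≤ ENNReal.ofReal B * ∫⁻ x in Set.univ.pi C, ‖Φ x‖ₑ ^ 2 := by gcongr
      _ ≤ _ := le_add_self
  · have h1 := refine_bound hV hΦ (r := 2 ^ (J - i) * L) (by positivity) (hT (J - i))
      (n := 2 ^ i) (by positivity) hC (p := p) s (by
        intro j hj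
        rw [hs j hj]
        congr 1
        push_cast
        rw [← mul_assoc, ← pow_add, Nat.add_sub_cancel' hi])
    refine enn_arith hI (c := c * 64 ^ (J - i)) (by positivity) h1 ?_ ?_ hB
    · push_cast
      rw [← pow_mul, mul_comm i 3, pow_mul]
      norm_num
      exact h6
    · refine hA.trans (le_of_eq ?_)
      have h2 : (64 : ℝ) ^ J = 64 ^ (J - i) * 64 ^ i := by
        rw [← pow_add, Nat.sub_add_cancel hi]
      rw [h2]
      field_simp

end part8

section part9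
variable {N : ℕ}

lemma le_add_of_sq_le {z a b : ℝ} (ha : 0 ≤ a) (hb : 0 ≤ b) (h : z ^ 2 ≤ 4 * (a * b)) : z ≤ a + b := by
  have h1 : z ^ 2 ≤ (a + b) ^ 2 := by nlinarith [sq_nonneg (a - b)]
  exact (abs_le_of_sq_le_sq' h1 (by positivity)).2

lemma exists_J {L R x : ℝ} (hL : 0 < L) (hx : 1 ≤ x) :
    ∃ J : ℕ, R * x ≤ 2 ^ J * L ∧ (2 : ℝ) ^ J ≤ max 1 (2 * R / L) * x := by
  classical
  have hex : ∃ J : ℕ, R * x ≤ 2 ^ J * L := by
    obtain ⟨J, hJ⟩ := pow_unbounded_of_one_lt (R * x / L) (by norm_num : (1 : ℝ) < 2)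
    exact ⟨J, by rw [div_lt_iff₀ hL] at hJ; exact hJ.le⟩
  refine ⟨Nat.find hex, Nat.find_spec hex, ?_⟩
  rcases Nat.eq_zero_or_pos (Nat.find hex) with h0 | h0
  · rw [h0, pow_zero]
    have h1 : (1 : ℝ) ≤ max 1 (2 * R / L) := le_max_left _ _
    nlinarith
  · have h1 := Nat.find_min hex (Nat.sub_one_lt h0.ne')
    push Not at h1
    have h2 : (2 : ℝ) ^ (Nat.find hex) = 2 * 2 ^ (Nat.find hex - 1) := by
      rw [← pow_succ', Nat.sub_add_cancel h0]
    have h3 : (2 : ℝ) ^ (Nat.find hex) ≤ 2 * R / L * x := by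
      rw [h2, div_mul_eq_mul_div, le_div_iff₀ hL]
      nlinarith
    refine h3.trans ?_
    gcongr
    exact le_max_right _ _

lemma arith {L c w R β : ℝ} (hL : 0 < L) (hc : 0 < c) (hw : 0 ≤ w)
    (hβ : β < 1 / 3) : ∃ C' : ℝ, 0 ≤ C' ∧ ∀ N : ℕ, 1 ≤ N → ∃ J : ℕ,
      R * (N : ℝ) ^ (1 / 2 - β) ≤ 2 ^ J * L ∧ ∀ m : ℕ, m ≤ N →
        (27 * (w * (N : ℝ) ^ (3 * β - 2)) * (m : ℝ) ^ 2 ≤ C' / N * m ∨ ∃ i ≤ J, 6 * (8 : ℝ) ^ i ≤ m ∧
          27 * (w * (N : ℝ) ^ (3 * β - 2)) * (m : ℝ) ^ 2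
            ≤ 2 * m / (9 * c) * (64 ^ i / 64 ^ J) + C' / N * m) := by
  set A : ℝ := max 1 (2 * R / L) with hA
  have hA1 : 1 ≤ A := le_max_left _ _
  have hA0 : 0 < A := by linarith
  -- threshold
  have ht : Tendsto (fun n : ℕ => 27 * w * (n : ℝ) ^ (-(1 - 3 * β))) atTop (𝓝 (27 * w * 0)) :=
    ((tendsto_rpow_neg_atTop (by linarith : 0 < 1 - 3 * β)).comp tendsto_natCast_atTop_atTop).const_mul _
  rw [mul_zero] at ht
  have hev := ht.eventually_le_const (show (0 : ℝ) < 2 / (9 * c) by positivity)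
  obtain ⟨N0, hN0⟩ := eventually_atTop.1 hev
  set c1 : ℝ := 2 / (9 * c * 48 ^ 2 * A ^ 6) with hc1
  have hc1p : 0 < c1 := by positivity
  set C' : ℝ := 162 * w + 27 * w * N0 + (27 * w) ^ 2 / (4 * c1) with hC'
  have hC0 : 0 ≤ C' := by positivity
  refine ⟨C', hC0, fun N hN => ?_⟩
  have hn1 : (1 : ℝ) ≤ N := by exact_mod_cast hN
  have hn0 : (0 : ℝ) < N := by linarith
  set n : ℝ := (N : ℝ) with hn
  set x : ℝ := n ^ (1 / 2 - β) with hx
  have hx1 : 1 ≤ x := Real.one_le_rpow hn1 (by linarith)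
  have hx0 : 0 < x := by linarith
  set y : ℝ := n ^ (3 * β - 2) with hy
  have hy0 : 0 < y := Real.rpow_pos_of_pos hn0 _
  have hyx : y ^ 2 * x ^ 6 = 1 / n := by
    rw [hy, hx, ← Real.rpow_natCast (n ^ (3 * β - 2)) 2, ← Real.rpow_natCast (n ^ (1 / 2 - β)) 6,
      ← Real.rpow_mul hn0.le, ← Real.rpow_mul hn0.le, ← Real.rpow_add hn0,
      show (1 : ℝ) / n = n ^ (-1 : ℝ) by rw [Real.rpow_neg_one, one_div]]
    congr 1
    push_cast
    ring
  obtain ⟨J, hJ1, hJ2⟩ := exists_J hL hx1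
  refine ⟨J, hJ1, fun m hm => ?_⟩
  have hmn : (m : ℝ) ≤ n := by rw [hn]; exact_mod_cast hm
  have hm0 : (0 : ℝ) ≤ m := by positivity
  rcases lt_or_ge m 6 with h6 | h6
  · left
    have h1 : (m : ℝ) ≤ 6 := by exact_mod_cast h6.le
    have h2 : y ≤ 1 / n := by
      rw [one_div, ← Real.rpow_neg_one n, hy]
      exact Real.rpow_le_rpow_of_exponent_le hn1 (by linarith)
    have h3 : 27 * (w * y) * (m : ℝ) ≤ C' / n := by
      calc 27 * (w * y) * (m : ℝ) ≤ 27 * (w * (1 / n)) * 6 := by gcongr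
        _ = (162 * w) / n := by ring
        _ ≤ C' / n := by
          gcongr
          rw [hC']
          have : 0 ≤ 27 * w * N0 + (27 * w) ^ 2 / (4 * c1) := by positivity
          linarith
    calc 27 * (w * y) * (m : ℝ) ^ 2 = (27 * (w * y) * (m : ℝ)) * m := by ring
      _ ≤ C' / n * m := by gcongr
  · right
    rcases le_or_gt (6 * 8 ^ J) m with hb | hb
    · refine ⟨J, le_rfl, by exact_mod_cast hb, ?_⟩
      rw [div_self (by positivity), mul_one]
      have h1 : 27 * (w * y) * (m : ℝ) ≤ 2 / (9 * c) + C' / n := by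
        have h2 : 27 * (w * y) * (m : ℝ) ≤ 27 * w * n ^ (-(1 - 3 * β)) := by
          have h3 : n ^ (-(1 - 3 * β)) = y * n := by
            rw [hy, ← Real.rpow_add_one hn0.ne']
            congr 1; ring
          rw [h3]
          calc 27 * (w * y) * (m : ℝ) ≤ 27 * (w * y) * n := by gcongr
            _ = 27 * w * (y * n) := by ring
        rcases le_or_gt N0 N with h3 | h3
        · have h4 := hN0 N h3
          have h5 : 0 ≤ C' / n := by positivity
          linarith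
        · have h4 : n ^ (-(1 - 3 * β)) ≤ 1 := Real.rpow_le_one_of_one_le_of_nonpos hn1 (by linarith)
          have h5 : n ≤ N0 := by rw [hn]; exact_mod_cast h3.le
          have h6 : 27 * w ≤ C' / n := by
            rw [le_div_iff₀ hn0]
            have h7 : 27 * w * n ≤ 27 * w * N0 := by gcongr
            have h8 : 0 ≤ 162 * w + (27 * w) ^ 2 / (4 * c1) := by positivity
            rw [hC']; linarith
          have h7 : 27 * w * n ^ (-(1 - 3 * β)) ≤ 27 * w * 1 := by gcongr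
          have h8 : 0 ≤ 2 / (9 * c) := by positivity
          linarith
      calc 27 * (w * y) * (m : ℝ) ^ 2 = (27 * (w * y) * (m : ℝ)) * m := by ring
        _ ≤ (2 / (9 * c) + C' / n) * m := by gcongr
        _ = _ := by ring
    · set i := Nat.log 8 (m / 6) with hi
      have hm6 : m / 6 ≠ 0 := by omega
      have h1 : 8 ^ i ≤ m / 6 := Nat.pow_log_le_self 8 hm6
      have h2 : m / 6 < 8 ^ (i + 1) := Nat.lt_pow_succ_log_self (by norm_num) _
      have h3 : 6 * 8 ^ i ≤ m := by omega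
      have h4 : m < 48 * 8 ^ i := by rw [pow_succ] at h2; omega
      have h5 : i < J := by
        by_contra hc
        push Not at hc
        have : 8 ^ J ≤ 8 ^ i := Nat.pow_le_pow_right (by norm_num) hc
        omega
      refine ⟨i, h5.le, by exact_mod_cast h3, ?_⟩
      have h4' : (m : ℝ) ≤ 48 * 8 ^ i := by exact_mod_cast h4.le
      have h6' : (m : ℝ) ^ 2 ≤ 48 ^ 2 * 64 ^ i := by
        have : (m : ℝ) ^ 2 ≤ (48 * 8 ^ i) ^ 2 := by gcongr
        refine this.trans (le_of_eq ?_)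
        rw [mul_pow, ← pow_mul, mul_comm i 2, pow_mul]
        norm_num
      have h7 : (64 : ℝ) ^ J ≤ A ^ 6 * x ^ 6 := by
        have : ((2 : ℝ) ^ J) ^ 6 ≤ (A * x) ^ 6 := by gcongr
        rw [← pow_mul, mul_comm J 6, pow_mul, mul_pow] at this
        norm_num at this
        exact this
      have h8 : c1 * (m : ℝ) ^ 2 / x ^ 6 ≤ 2 / (9 * c) * (64 ^ i / 64 ^ J) := by
        have h9 : (m : ℝ) ^ 2 / (48 ^ 2 * (A ^ 6 * x ^ 6)) ≤ 64 ^ i / 64 ^ J := by
          rw [div_le_div_iff₀ (by positivity) (by positivity)]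
          calc (m : ℝ) ^ 2 * 64 ^ J ≤ (48 ^ 2 * 64 ^ i) * (A ^ 6 * x ^ 6) := by gcongr
            _ = _ := by ring
        calc c1 * (m : ℝ) ^ 2 / x ^ 6 = 2 / (9 * c) * ((m : ℝ) ^ 2 / (48 ^ 2 * (A ^ 6 * x ^ 6))) := by
              rw [hc1]; field_simp
          _ ≤ _ := by gcongr
      have h10 : 27 * (w * y) * (m : ℝ) ≤ c1 * (m : ℝ) ^ 2 / x ^ 6 + C' / n := by
        apply le_add_of_sq_le (by positivity) (by positivity)
        have h11 : (27 * w) ^ 2 ≤ 4 * c1 * C' := by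
          have h12 : (27 * w) ^ 2 / (4 * c1) ≤ C' := by
            rw [hC']
            have : 0 ≤ 162 * w + 27 * w * N0 := by positivity
            linarith
          rw [div_le_iff₀ (by positivity)] at h12
          linarith
        have h13 : C' / n = C' * (y ^ 2 * x ^ 6) := by rw [hyx]; ring
        rw [h13]
        calc (27 * (w * y) * (m : ℝ)) ^ 2 = (27 * w) ^ 2 * (y ^ 2 * (m : ℝ) ^ 2) := by ring
          _ ≤ (4 * c1 * C') * (y ^ 2 * (m : ℝ) ^ 2) := by gcongr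
          _ = 4 * (c1 * (m : ℝ) ^ 2 / x ^ 6 * (C' * (y ^ 2 * x ^ 6))) := by
            field_simp
      calc 27 * (w * y) * (m : ℝ) ^ 2 = (27 * (w * y) * (m : ℝ)) * m := by ring
        _ ≤ (c1 * (m : ℝ) ^ 2 / x ^ 6 + C' / n) * m := by gcongr
        _ ≤ (2 / (9 * c) * (64 ^ i / 64 ^ J) + C' / n) * m := by gcongr
        _ = _ := by ring

end part9

section part10
variable {N : ℕ}

/-- number of close pairs -/
def npairs (R : ℝ) (x : Fin N → E3) : ℕ :=
  (Finset.univ.filter (fun q : Fin N × Fin N => q.1 < q.2 ∧ ‖x q.1 - x q.2‖ ≤ R)).card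

lemma npairs_le {R ρ : ℝ} (hρ : 0 < ρ) (hR : R ≤ ρ) (K : Fin N → (Fin 3 → ℤ)) {x : Fin N → E3}
    (hx : x ∈ Set.univ.pi (fun j => cell ρ (K j))) :
    npairs R x ≤ 27 * ∑ κ ∈ Finset.univ.image K, (occ K κ).card ^ 2 := by
  refine le_trans (Finset.card_le_card ?_) (pairs_near K)
  intro q hq
  simp only [Finset.mem_filter, Finset.mem_univ, true_and] at hq ⊢
  intro k
  exact cell_near hρ (hx q.1 (mem_univ _)) (hx q.2 (mem_univ _)) (hq.2.trans hR) k

lemma sum_occ (K : Fin N → (Fin 3 → ℤ)) : ∑ κ ∈ Finset.univ.image K, (occ K κ).card = N := by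
  classical
  have h := Finset.card_eq_sum_card_fiberwise (f := K) (s := (Finset.univ : Finset (Fin N)))
    (t := Finset.univ.image K) (fun i _ => by simp)
  rw [Finset.card_univ, Fintype.card_fin] at h
  exact h.symm

variable {V : E3 → E3 → ℝ} (hV : Measurable (fun p : E3 × E3 => V p.1 p.2))
  {Φ : (Fin N → E3) → ℂ} (hΦ : ContDiff ℝ 1 Φ)

include hV hΦ

lemma box_bound {L c : ℝ} (hL : 0 < L) (hc : 0 < c) (hT : ∀ J : ℕ, Tprop V (2 ^ J * L) (c * 64 ^ J))
    {J : ℕ} {b R C' : ℝ} (hb : 0 ≤ b) (hC' : 0 ≤ C') (hN : 1 ≤ N) (hR : R ≤ 2 ^ J * L)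
    (har : ∀ m : ℕ, m ≤ N → (27 * b * (m : ℝ) ^ 2 ≤ C' / N * m ∨ ∃ i ≤ J, 6 * (8 : ℝ) ^ i ≤ m ∧
      27 * b * (m : ℝ) ^ 2 ≤ 2 * m / (9 * c) * (64 ^ i / 64 ^ J) + C' / N * m))
    (K : Fin N → (Fin 3 → ℤ))
    (hI : ∫⁻ x in Set.univ.pi (fun j => cell (2 ^ J * L) (K j)), ‖Φ x‖ₑ ^ 2 ≠ ⊤) :
    ∫⁻ x in Set.univ.pi (fun j => cell (2 ^ J * L) (K j)),
        ENNReal.ofReal b * (npairs R x : ℝ≥0∞) * ‖Φ x‖ₑ ^ 2
      ≤ (∫⁻ x in Set.univ.pi (fun j => cell (2 ^ J * L) (K j)), dens V Φ Finset.univ x)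
        + ENNReal.ofReal C' *
          ∫⁻ x in Set.univ.pi (fun j => cell (2 ^ J * L) (K j)), ‖Φ x‖ₑ ^ 2 := by
  classical
  have hρ : (0 : ℝ) < 2 ^ J * L := by positivity
  set B := Set.univ.pi (fun j => cell (2 ^ J * L) (K j)) with hB
  have hCm : ∀ j, MeasurableSet (cell (2 ^ J * L) (K j)) := fun j => measurableSet_cube _ _
  have hBm : MeasurableSet B := MeasurableSet.univ_pi hCm
  have hN0 : (0 : ℝ) < N := by exact_mod_cast hN
  set I := ∫⁻ x in B, ‖Φ x‖ₑ ^ 2 with hIdef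
  set Γ := Finset.univ.image K with hΓ
  have h1 : ∫⁻ x in B, ENNReal.ofReal b * (npairs R x : ℝ≥0∞) * ‖Φ x‖ₑ ^ 2
      ≤ ∫⁻ x in B, (∑ κ ∈ Γ, ENNReal.ofReal (27 * b * ((occ K κ).card : ℝ) ^ 2)) * ‖Φ x‖ₑ ^ 2 := by
    apply setLIntegral_mono' hBm
    intro x hx
    gcongr
    have h2 := npairs_le hρ hR K hx
    calc ENNReal.ofReal b * (npairs R x : ℝ≥0∞)
        ≤ ENNReal.ofReal b * ((27 * ∑ κ ∈ Γ, (occ K κ).card ^ 2 : ℕ) : ℝ≥0∞) := by
          gcongr
      _ = _ := by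
          push_cast
          rw [← mul_assoc, Finset.mul_sum]
          apply Finset.sum_congr rfl
          intro κ _
          rw [ENNReal.ofReal_mul (by positivity), ENNReal.ofReal_mul (by positivity),
            ENNReal.ofReal_pow (by positivity)]
          simp only [ENNReal.ofReal_natCast, ENNReal.ofReal_ofNat]
          ring
  have hΦm : Measurable Φ := hΦ.continuous.measurable
  have hm1 : Measurable (fun x => ‖Φ x‖ₑ ^ 2) := by fun_prop
  rw [lintegral_const_mul _ hm1, ← hIdef, Finset.sum_mul] at h1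
  refine h1.trans ?_
  have h2 : ∀ κ ∈ Γ, ENNReal.ofReal (27 * b * ((occ K κ).card : ℝ) ^ 2) * I
      ≤ (∫⁻ x in B, dens V Φ (occ K κ) x)
        + ENNReal.ofReal (C' / N * (occ K κ).card) * I := by
    intro κ _
    apply color_bound hV hΦ hL hc hT hCm (J := J) (p := fun k => (2 ^ J * L) * (κ k : ℝ)) (occ K κ) _ hI
      (by positivity)
    · exact har _ (by
        have := Finset.card_le_univ (occ K κ)
        simpa using this)
    · intro j hj
      rw [occ, Finset.mem_filter] at hj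
      rw [hj.2]; rfl
  refine (Finset.sum_le_sum h2).trans ?_
  rw [Finset.sum_add_distrib]
  apply add_le_add
  · rw [← lintegral_finsetSum _ (fun κ _ => dens_meas hV hΦ _)]
    apply lintegral_mono
    intro x
    refine (dens_colors V Φ Finset.univ K Γ x).trans ?_
    exact dens_mono V Φ (Finset.subset_univ _) x
  · rw [← Finset.sum_mul, ← ENNReal.ofReal_sum_of_nonneg (fun κ _ => by positivity), ← Finset.mul_sum,
      ← Nat.cast_sum, sum_occ]
    have : C' / N * (N : ℝ) = C' := by field_simp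
    rw [this]

lemma global_bound {L c : ℝ} (hL : 0 < L) (hc : 0 < c) (hT : ∀ J : ℕ, Tprop V (2 ^ J * L) (c * 64 ^ J))
    {J : ℕ} {b R C' : ℝ} (hb : 0 ≤ b) (hC' : 0 ≤ C') (hN : 1 ≤ N) (hR : R ≤ 2 ^ J * L)
    (har : ∀ m : ℕ, m ≤ N → (27 * b * (m : ℝ) ^ 2 ≤ C' / N * m ∨ ∃ i ≤ J, 6 * (8 : ℝ) ^ i ≤ m ∧
      27 * b * (m : ℝ) ^ 2 ≤ 2 * m / (9 * c) * (64 ^ i / 64 ^ J) + C' / N * m))
    (hI : ∫⁻ x, ‖Φ x‖ₑ ^ 2 ≠ ⊤) :
    ∫⁻ x, ENNReal.ofReal b * (npairs R x : ℝ≥0∞) * ‖Φ x‖ₑ ^ 2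
      ≤ (∫⁻ x, dens V Φ Finset.univ x) + ENNReal.ofReal C' * ∫⁻ x, ‖Φ x‖ₑ ^ 2 := by
  have hρ : (0 : ℝ) < 2 ^ J * L := by positivity
  have hpart : ∀ f : (Fin N → E3) → ℝ≥0∞, ∫⁻ x, f x
      = ∑' K : Fin N → (Fin 3 → ℤ), ∫⁻ x in Set.univ.pi (fun j => cell (2 ^ J * L) (K j)), f x := by
    intro f
    rw [← lintegral_partition (t := fun _ => cell (2 ^ J * L)) (fun j κ => measurableSet_cube _ _)
      (fun j κ κ' h => cell_disjoint hρ h), cell_cover hρ, Set.pi_univ, setLIntegral_univ]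
  rw [hpart, hpart (dens V Φ Finset.univ), hpart (fun x => ‖Φ x‖ₑ ^ 2), ← ENNReal.tsum_mul_left,
    ← ENNReal.tsum_add]
  apply ENNReal.tsum_le_tsum
  intro K
  apply box_bound hV hΦ hL hc hT hb hC' hN hR har
  exact ne_top_of_le_ne_top hI (setLIntegral_le_lintegral _ _)

end part10

section part11
variable {N : ℕ}

lemma integrable_sq {Φ : (Fin N → E3) → ℂ} (hΦ : Continuous Φ) (hc : HasCompactSupport Φ) :
    Integrable (fun x => ‖Φ x‖ ^ 2) := by
  apply Continuous.integrable_of_hasCompactSupport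
  · exact hΦ.norm.pow 2
  · exact hc.comp_left (g := fun z : ℂ => ‖z‖ ^ 2) (by simp)

lemma integrable_dom {f : (Fin N → E3) → ℝ} {Φ : (Fin N → E3) → ℂ} (hΦ : Continuous Φ)
    (hc : HasCompactSupport Φ) (hf : Measurable f) {M : ℝ} (h : ∀ x, |f x| ≤ M * ‖Φ x‖ ^ 2) :
    Integrable f :=
  ((integrable_sq hΦ hc).const_mul M).mono' hf.aestronglyMeasurable
    (ae_of_all _ fun x => by rw [Real.norm_eq_abs]; exact h x)

def densR (V : E3 → E3 → ℝ) (Φ : (Fin N → E3) → ℂ) (x : Fin N → E3) : ℝ :=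
  ∑ j, kinE Φ j x + ∑ t ∈ trip (Finset.univ : Finset (Fin N)), V (x t.1 - x t.2.1) (x t.1 - x t.2.2) * ‖Φ x‖ ^ 2

lemma densR_nonneg {V : E3 → E3 → ℝ} (hV : ∀ x y, 0 ≤ V x y) (Φ : (Fin N → E3) → ℂ) (x : Fin N → E3) :
    0 ≤ densR V Φ x :=
  add_nonneg (Finset.sum_nonneg fun j _ => kinE_nonneg _ _ _)
    (Finset.sum_nonneg fun t _ => mul_nonneg (hV _ _) (by positivity))

lemma dens_eq {V : E3 → E3 → ℝ} (hV : ∀ x y, 0 ≤ V x y) (Φ : (Fin N → E3) → ℂ) (x : Fin N → E3) :
    dens V Φ Finset.univ x = ENNReal.ofReal (densR V Φ x) := by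
  unfold dens densR
  rw [ENNReal.ofReal_add (Finset.sum_nonneg fun j _ => kinE_nonneg _ _ _)
    (Finset.sum_nonneg fun t _ => mul_nonneg (hV _ _) (by positivity)),
    ENNReal.ofReal_sum_of_nonneg (fun j _ => kinE_nonneg _ _ _),
    ENNReal.ofReal_sum_of_nonneg (fun t _ => mul_nonneg (hV _ _) (by positivity))]
  congr 1
  apply Finset.sum_congr rfl
  intro t _
  rw [ENNReal.ofReal_mul (hV _ _), ENNReal.ofReal_pow (norm_nonneg _), ofReal_norm]

lemma kinE_supp {Φ : (Fin N → E3) → ℂ} (hc : HasCompactSupport Φ) (j : Fin N) :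
    HasCompactSupport (kinE Φ j) := by
  have h := hc.fderiv (𝕜 := ℝ)
  exact h.comp_left (g := fun A : (Fin N → E3) →L[ℝ] ℂ => ∑ k : Fin 3, ‖A (Pi.single j (ek k))‖ ^ 2)
    (by simp)

lemma densR_integrable {V : E3 → E3 → ℝ} (hV : VGood V) {Φ : (Fin N → E3) → ℂ}
    (hΦ : ContDiff ℝ 1 Φ) (hc : HasCompactSupport Φ) : Integrable (densR V Φ) := by
  obtain ⟨M, hM⟩ := hV.bdd
  apply Integrable.add
  · apply integrable_finsetSum
    intro j _
    exact (kinE_cont hΦ j).integrable_of_hasCompactSupport (kinE_supp hc j)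
  · apply integrable_finsetSum
    intro t _
    refine integrable_dom hΦ.continuous hc (M := M) ?_ ?_
    · exact (V_meas' hV.meas _ _ _).mul (hΦ.continuous.norm.pow 2).measurable
    · intro x
      rw [abs_of_nonneg (mul_nonneg (hV.nonneg _ _) (by positivity))]
      gcongr
      exact hM _ _

lemma npairs_real (R : ℝ) (x : Fin N → E3) : (npairs R x : ℝ)
    = ∑ i, ∑ j, (if i < j ∧ ‖x i - x j‖ ≤ R then (1 : ℝ) else 0) := by
  classical
  unfold npairs
  rw [Finset.card_filter, Nat.cast_sum, ← Finset.univ_product_univ, Finset.sum_product]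
  apply Finset.sum_congr rfl
  intro i _
  apply Finset.sum_congr rfl
  intro j _
  push_cast
  rfl

lemma npairs_le_sq (R : ℝ) (x : Fin N → E3) : (npairs R x : ℝ) ≤ (N : ℝ) ^ 2 := by
  have h : npairs R x ≤ N ^ 2 := by
    unfold npairs
    refine (Finset.card_le_univ _).trans (le_of_eq ?_)
    simp [pow_two]
  exact_mod_cast h

lemma npairs_meas (R : ℝ) : Measurable (fun x : Fin N → E3 => (npairs R x : ℝ)) := by
  have h : (fun x : Fin N → E3 => (npairs R x : ℝ))
      = fun x => ∑ i, ∑ j, (if i < j ∧ ‖x i - x j‖ ≤ R then (1 : ℝ) else 0) := by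
    funext x; exact npairs_real R x
  rw [h]
  apply Finset.measurable_fun_sum
  intro i _
  apply Finset.measurable_fun_sum
  intro j _
  apply Measurable.ite _ measurable_const measurable_const
  by_cases hij : i < j
  · simp only [hij, true_and]
    exact (isClosed_le (by fun_prop) continuous_const).measurableSet
  · simp only [hij, false_and, Set.ofPred_false]
    exact MeasurableSet.empty

lemma stab_real {V : E3 → E3 → ℝ} (hV : VGood V) {w β R0 : ℝ} (hw : 0 ≤ w) (hβ : β < 1 / 3) :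
    ∃ C : ℝ, 0 ≤ C ∧ ∀ N : ℕ, 1 ≤ N → ∀ Φ : (Fin N → E3) → ℂ, ContDiff ℝ 1 Φ → HasCompactSupport Φ →
      ∫ x, (w * (N : ℝ) ^ (3 * β - 2)) * (npairs (R0 * (N : ℝ) ^ (1 / 2 - β)) x : ℝ) * ‖Φ x‖ ^ 2
        ≤ (∫ x, densR V Φ x) + C * ∫ x, ‖Φ x‖ ^ 2 := by
  obtain ⟨L, c, hL, hc, hT⟩ := exists_T hV
  obtain ⟨C', hC', har⟩ := arith (R := R0) hL hc hw hβ
  refine ⟨C', hC', fun N hN Φ hΦ hcs => ?_⟩
  obtain ⟨J, hJ, hJ2⟩ := har N hN
  set b : ℝ := w * (N : ℝ) ^ (3 * β - 2) with hb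
  have hb0 : 0 ≤ b := by positivity
  set R : ℝ := R0 * (N : ℝ) ^ (1 / 2 - β) with hR
  clear_value b R
  have hsq := integrable_sq hΦ.continuous hcs
  have hI : ∫⁻ x, ‖Φ x‖ₑ ^ 2 = ENNReal.ofReal (∫ x, ‖Φ x‖ ^ 2) := by
    rw [ofReal_integral_eq_lintegral_ofReal hsq (ae_of_all _ fun x => by positivity)]
    congr 1; ext x
    rw [ENNReal.ofReal_pow (norm_nonneg _), ofReal_norm]
  have hI2 : ∫⁻ x, ‖Φ x‖ₑ ^ 2 ≠ ⊤ := by rw [hI]; exact ENNReal.ofReal_ne_top
  have h1 := global_bound hV.meas hΦ hL hc hT hb0 hC' hN hJ hJ2 hI2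
  have hP : Integrable (fun x => b * (npairs R x : ℝ) * ‖Φ x‖ ^ 2) := by
    refine integrable_dom hΦ.continuous hcs (M := b * (N : ℝ) ^ 2) ?_ ?_
    · exact ((npairs_meas R).const_mul b).mul (hΦ.continuous.norm.pow 2).measurable
    · intro x
      rw [abs_of_nonneg (by positivity)]
      gcongr
      exact npairs_le_sq R x
  have h2 : ∫⁻ x, ENNReal.ofReal b * (npairs R x : ℝ≥0∞) * ‖Φ x‖ₑ ^ 2
      = ENNReal.ofReal (∫ x, b * (npairs R x : ℝ) * ‖Φ x‖ ^ 2) := by
    rw [ofReal_integral_eq_lintegral_ofReal hP (ae_of_all _ fun x => by positivity)]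
    congr 1; ext x
    rw [ENNReal.ofReal_mul (by positivity), ENNReal.ofReal_mul hb0,
      ENNReal.ofReal_pow (norm_nonneg _), ofReal_norm, ENNReal.ofReal_natCast]
  have h3 : ∫⁻ x, dens V Φ Finset.univ x = ENNReal.ofReal (∫ x, densR V Φ x) := by
    rw [ofReal_integral_eq_lintegral_ofReal (densR_integrable hV hΦ hcs)
      (ae_of_all _ fun x => densR_nonneg hV.nonneg _ _)]
    congr 1; ext x
    exact dens_eq hV.nonneg Φ x
  have h4 : 0 ≤ ∫ x, ‖Φ x‖ ^ 2 := integral_nonneg fun x => by positivity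
  have h5 : 0 ≤ ∫ x, densR V Φ x := integral_nonneg fun x => densR_nonneg hV.nonneg _ _
  rw [h2, h3, hI, ← ENNReal.ofReal_mul hC', ← ENNReal.ofReal_add h5 (by positivity),
    ENNReal.ofReal_le_ofReal_iff (by positivity)] at h1
  exact h1

end part11

section part12
variable {N : ℕ}

lemma kinE_scale (Ψ : (Fin N → E3) → ℂ) (c : ℝ) (j : Fin N) (x : Fin N → E3) :
    kinE (fun x => Ψ (c • x)) j x = c ^ 2 * kinE Ψ j (c • x) := by
  unfold kinE
  rw [Finset.mul_sum]
  apply Finset.sum_congr rfl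
  intro k _
  rw [fderiv_comp_smul, _root_.smul_apply, norm_smul, mul_pow, Real.norm_eq_abs, sq_abs]

lemma triple_sum (f : Fin N → Fin N → Fin N → ℝ) :
    ∑ i, ∑ j, ∑ k, (if i < j ∧ j < k then f i j k else 0)
      = ∑ t ∈ trip (Finset.univ : Finset (Fin N)), f t.1 t.2.1 t.2.2 := by
  classical
  unfold trip
  rw [Finset.sum_filter, Finset.sum_product]
  apply Finset.sum_congr rfl
  intro i _
  rw [Finset.sum_product]

lemma potential_lower {Vext : E3 → ℝ} (hVext : ∀ x, 0 ≤ Vext x) (V : E3 → E3 → ℝ) {W : E3 → ℝ}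
    {w R0 β : ℝ} (hW : ∀ y, -w ≤ W y) (hW0 : ∀ y, R0 < ‖y‖ → W y = 0)
    (hN : 1 ≤ N) (x : Fin N → E3) :
    (N : ℝ) * ((∑ t ∈ trip (Finset.univ : Finset (Fin N)), V (x t.1 - x t.2.1) (x t.1 - x t.2.2))
      - (w * (N : ℝ) ^ (3 * β - 2)) * (npairs (R0 * (N : ℝ) ^ (1 / 2 - β)) x : ℝ))
      ≤ potential Vext V W β N (((N : ℝ) ^ (1 / 2 : ℝ))⁻¹ • x) := by
  have hn : (0 : ℝ) < N := by exact_mod_cast hN
  set a : ℝ := (N : ℝ) ^ (1 / 2 : ℝ) with ha
  have ha0 : 0 < a := Real.rpow_pos_of_pos hn _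
  have h1 : 0 ≤ ∑ i, Vext ((a⁻¹ • x) i) := Finset.sum_nonneg fun i _ => hVext _
  have h3 : ∑ i, ∑ j, ∑ k, (if i < j ∧ j < k then
      (N : ℝ) * V (a • ((a⁻¹ • x) i - (a⁻¹ • x) j)) (a • ((a⁻¹ • x) i - (a⁻¹ • x) k)) else 0)
      = (N : ℝ) * ∑ t ∈ trip (Finset.univ : Finset (Fin N)), V (x t.1 - x t.2.1) (x t.1 - x t.2.2) := by
    rw [triple_sum (fun i j k => (N : ℝ) * V (a • ((a⁻¹ • x) i - (a⁻¹ • x) j))
      (a • ((a⁻¹ • x) i - (a⁻¹ • x) k))), Finset.mul_sum]
    apply Finset.sum_congr rfl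
    intro t _
    simp only [Pi.smul_apply, ← smul_sub, smul_smul, mul_inv_cancel₀ ha0.ne', one_smul]
  have h2 : -((N : ℝ) * ((w * (N : ℝ) ^ (3 * β - 2)) * (npairs (R0 * (N : ℝ) ^ (1 / 2 - β)) x : ℝ)))
      ≤ ∑ i, ∑ j, (if i < j then (N : ℝ) ^ (3 * β - 1) *
        W ((N : ℝ) ^ β • ((a⁻¹ • x) i - (a⁻¹ • x) j)) else 0) := by
    rw [npairs_real, Finset.mul_sum, Finset.mul_sum, ← Finset.sum_neg_distrib]
    apply Finset.sum_le_sum
    intro i _
    rw [Finset.mul_sum, Finset.mul_sum, ← Finset.sum_neg_distrib]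
    apply Finset.sum_le_sum
    intro j _
    have hNb : (N : ℝ) * (w * (N : ℝ) ^ (3 * β - 2)) = (N : ℝ) ^ (3 * β - 1) * w := by
      rw [show (3 * β - 1 : ℝ) = (3 * β - 2) + 1 by ring, Real.rpow_add_one hn.ne']
      ring
    have hp : 0 < (N : ℝ) ^ (3 * β - 1) := Real.rpow_pos_of_pos hn _
    rw [← mul_assoc, hNb]
    by_cases hij : i < j
    · simp only [hij, true_and, if_true]
      by_cases hR : ‖x i - x j‖ ≤ R0 * (N : ℝ) ^ (1 / 2 - β)
      · simp only [hR, if_true, mul_one]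
        have := hW ((N : ℝ) ^ β • ((a⁻¹ • x) i - (a⁻¹ • x) j))
        nlinarith
      · simp only [hR, if_false, mul_zero, neg_zero]
        have h5 : W ((N : ℝ) ^ β • ((a⁻¹ • x) i - (a⁻¹ • x) j)) = 0 := by
          apply hW0
          simp only [Pi.smul_apply, ← smul_sub, smul_smul]
          rw [norm_smul, Real.norm_eq_abs, abs_of_pos (by positivity)]
          push Not at hR
          have h6 : (N : ℝ) ^ β * a⁻¹ * (N : ℝ) ^ (1 / 2 - β) = 1 := by
            rw [ha, ← Real.rpow_neg hn.le, ← Real.rpow_add hn, ← Real.rpow_add hn]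
            rw [show β + -(1 / 2) + (1 / 2 - β) = (0 : ℝ) by ring, Real.rpow_zero]
          have h7 : 0 < (N : ℝ) ^ β * a⁻¹ := by positivity
          calc R0 = (N : ℝ) ^ β * a⁻¹ * (R0 * (N : ℝ) ^ (1 / 2 - β)) := by
                rw [mul_comm R0, ← mul_assoc, h6, one_mul]
            _ < (N : ℝ) ^ β * a⁻¹ * ‖x i - x j‖ := by gcongr
        rw [h5, mul_zero]
    · simp [hij]
  unfold potential
  rw [← ha, h3]
  linarith

theorem stable_of_lt {Vext : E3 → ℝ} (hVext : ∀ x, 0 ≤ Vext x) {V : E3 → E3 → ℝ} {W : E3 → ℝ}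
    (h : AdmissiblePair V W) {β : ℝ} (hβ : β < 1 / 3) : Stable Vext V W β := by
  have hV : VGood V := ⟨h.V_meas, h.V_nonneg, h.V_bdd, h.V_ne⟩
  obtain ⟨M, hM⟩ := h.W_bdd
  set w := max M 0 with hw
  have hw0 : 0 ≤ w := le_max_right _ _
  have hWw : ∀ y, -w ≤ W y := fun y => by
    have := hM y
    have h2 : M ≤ w := le_max_left _ _
    linarith
  obtain ⟨R0, hR0⟩ := h.W_supp.isCompact.isBounded.subset_closedBall (0 : E3)
  have hW0 : ∀ y, R0 < ‖y‖ → W y = 0 := by
    intro y hy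
    apply image_eq_zero_of_notMem_tsupport
    intro hmem
    have := hR0 hmem
    rw [mem_closedBall_zero_iff] at this
    linarith
  obtain ⟨C, hC, hstab⟩ := stab_real (R0 := R0) hV hw0 hβ
  refine ⟨C + 1, by linarith, fun N hN Ψ hΨ hcs _ => ?_⟩
  have hn : (0 : ℝ) < N := by exact_mod_cast hN
  have hsq0 : 0 ≤ ∫ x, ‖Ψ x‖ ^ 2 := integral_nonneg fun x => by positivity
  by_cases hg : Integrable (fun x => gradSq Ψ x + potential Vext V W β N x * ‖Ψ x‖ ^ 2)
  swap
  · unfold energy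
    rw [integral_undef hg]
    have : 0 ≤ (C + 1) * N * ∫ x, ‖Ψ x‖ ^ 2 := by positivity
    linarith
  set a : ℝ := (N : ℝ) ^ (1 / 2 : ℝ) with ha
  have ha0 : 0 < a := Real.rpow_pos_of_pos hn _
  have ha2 : a ^ 2 = N := by
    rw [ha, ← Real.rpow_natCast, ← Real.rpow_mul hn.le]; norm_num
  set Φ : (Fin N → E3) → ℂ := fun x => Ψ (a⁻¹ • x) with hΦ
  have hΦ1 : ContDiff ℝ 1 Φ := by
    have h1 : ContDiff ℝ 1 Ψ := hΨ.of_le (by exact_mod_cast le_top)
    exact h1.comp (contDiff_id.const_smul a⁻¹)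
  have hΦc : HasCompactSupport Φ := hcs.comp_smul (inv_ne_zero ha0.ne')
  have key := hstab N hN Φ hΦ1 hΦc
  set g : (Fin N → E3) → ℝ := fun x => gradSq Ψ x + potential Vext V W β N x * ‖Ψ x‖ ^ 2 with hgdef
  set P : (Fin N → E3) → ℝ := fun x => (w * (N : ℝ) ^ (3 * β - 2)) *
    (npairs (R0 * (N : ℝ) ^ (1 / 2 - β)) x : ℝ) * ‖Φ x‖ ^ 2 with hP
  have hPi : Integrable P := by
    refine integrable_dom hΦ1.continuous hΦc (M := (w * (N : ℝ) ^ (3 * β - 2)) * (N : ℝ) ^ 2) ?_ ?_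
    · exact ((npairs_meas _).const_mul _).mul (hΦ1.continuous.norm.pow 2).measurable
    · intro x
      rw [hP]
      simp only
      rw [abs_of_nonneg (by positivity)]
      gcongr
      exact npairs_le_sq _ x
  have hDi := densR_integrable hV hΦ1 hΦc
  have hpt : ∀ x, (N : ℝ) * (densR V Φ x - P x) ≤ g (a⁻¹ • x) := by
    intro x
    have h1 := potential_lower hVext V hWw hW0 (β := β) hN x
    rw [← ha] at h1
    have h2 : gradSq Ψ (a⁻¹ • x) = (N : ℝ) * ∑ j, kinE Φ j x := by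
      rw [Finset.mul_sum]
      unfold gradSq
      apply Finset.sum_congr rfl
      intro j _
      rw [hΦ, kinE_scale, ← mul_assoc, ← ha2, ← mul_pow, mul_inv_cancel₀ ha0.ne', one_pow, one_mul]
      rfl
    have h3 : 0 ≤ ‖Φ x‖ ^ 2 := by positivity
    have h4 := mul_le_mul_of_nonneg_right h1 h3
    have h5 : densR V Φ x - P x = ∑ j, kinE Φ j x
        + ((∑ t ∈ trip (Finset.univ : Finset (Fin N)), V (x t.1 - x t.2.1) (x t.1 - x t.2.2))
        - (w * (N : ℝ) ^ (3 * β - 2)) * (npairs (R0 * (N : ℝ) ^ (1 / 2 - β)) x : ℝ)) * ‖Φ x‖ ^ 2 := by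
      unfold densR
      rw [hP, sub_mul, Finset.sum_mul]
      ring
    rw [h5, mul_add, ← mul_assoc (N : ℝ)]
    simp only [hgdef]
    rw [h2]
    gcongr
  have hgi : Integrable (fun x => g (a⁻¹ • x)) := hg.comp_smul (inv_ne_zero ha0.ne')
  have hint := integral_mono ((hDi.sub hPi).const_mul (N : ℝ)) hgi hpt
  have e1 : ∫ x, (N : ℝ) * ((densR V Φ - P) x) = (N : ℝ) * ((∫ x, densR V Φ x) - ∫ x, P x) := by
    rw [integral_const_mul, integral_sub' hDi hPi]
  have hint2 : (N : ℝ) * ((∫ x, densR V Φ x) - ∫ x, P x) ≤ ∫ x, g (a⁻¹ • x) := by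
    rw [← e1]; exact hint
  rw [Measure.integral_comp_smul] at hint2
  set κ : ℝ := |((a⁻¹) ^ Module.finrank ℝ (Fin N → E3))⁻¹| with hκ
  have hκ0 : 0 < κ := by rw [hκ]; positivity
  have e2 : ∫ x, ‖Φ x‖ ^ 2 = κ * ∫ x, ‖Ψ x‖ ^ 2 := by
    have := Measure.integral_comp_smul (volume : Measure (Fin N → E3)) (fun x => ‖Ψ x‖ ^ 2) a⁻¹
    rw [hΦ]
    simpa [hκ] using this
  rw [e2] at key
  have e3 : -(C * N * (κ * ∫ x, ‖Ψ x‖ ^ 2)) ≤ κ * ∫ x, g x := by
    refine le_trans ?_ hint2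
    have h6 : -(C * (κ * ∫ x, ‖Ψ x‖ ^ 2)) ≤ (∫ x, densR V Φ x) - ∫ x, P x := by
      linarith
    have h7 := mul_le_mul_of_nonneg_left h6 hn.le
    linarith
  have e4 : -(C * N * ∫ x, ‖Ψ x‖ ^ 2) ≤ ∫ x, g x := by
    have : κ * (-(C * N * ∫ x, ‖Ψ x‖ ^ 2)) ≤ κ * ∫ x, g x := by linarith
    exact le_of_mul_le_mul_left this hκ0
  have e5 : 0 ≤ (N : ℝ) * ∫ x, ‖Ψ x‖ ^ 2 := by positivity
  unfold energy
  linarith

end part12

section part13
variable {N : ℕ}

def bump : ContDiffBump (0 : E3) := ⟨1 / 4, 1 / 2, by norm_num, by norm_num⟩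

lemma bump_zero {y : E3} (h : 1 / 2 ≤ ‖y‖) : bump y = 0 :=
  bump.zero_of_le_dist (by rw [dist_zero_right]; exact h)

def pB (y : E3) : ℝ := bump y ^ 2
def qB (y : E3) : ℝ := ∑ k : Fin 3, (fderiv ℝ bump y (ek k)) ^ 2

def trial (N : ℕ) (R : ℝ) (x : Fin N → E3) : ℂ := ((∏ i, bump (R • x i) : ℝ) : ℂ)

lemma trial_contDiff (R : ℝ) : ContDiff ℝ ∞ (trial N R) := by
  have h : ContDiff ℝ ∞ (fun x : Fin N → E3 => ∏ i, bump (R • x i)) := by
    apply contDiff_prod
    intro i _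
    exact bump.contDiff.comp ((contDiff_apply ℝ E3 i).const_smul R)
  exact Complex.ofRealCLM.contDiff.comp h

lemma trial_norm (R : ℝ) (x : Fin N → E3) : ‖trial N R x‖ ^ 2 = ∏ i, pB (R • x i) := by
  unfold trial pB
  rw [Complex.norm_real, Real.norm_eq_abs, sq_abs, Finset.prod_pow]

lemma trial_supp {R : ℝ} {x : Fin N → E3} (h : trial N R x ≠ 0) (i : Fin N) : ‖R • x i‖ < 1 / 2 := by
  by_contra hc
  push Not at hc
  apply h
  unfold trial
  rw [Finset.prod_eq_zero (Finset.mem_univ i) (bump_zero hc)]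
  simp

lemma trial_compact {R : ℝ} (hR : 1 ≤ R) : HasCompactSupport (trial N R) := by
  apply HasCompactSupport.intro (isCompact_closedBall (0 : Fin N → E3) 1)
  intro x hx
  by_contra h
  apply hx
  rw [mem_closedBall_zero_iff, pi_norm_le_iff_of_nonneg zero_le_one]
  intro i
  have h1 := trial_supp h i
  rw [norm_smul, Real.norm_eq_abs, abs_of_pos (by linarith)] at h1
  nlinarith [norm_nonneg (x i)]

lemma trial_perm (R : ℝ) (σ : Equiv.Perm (Fin N)) (x : Fin N → E3) : trial N R (x ∘ σ) = trial N R x := by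
  unfold trial
  congr 1
  exact Equiv.prod_comp σ (fun i => bump (R • x i))

lemma trial_fderiv (R : ℝ) (x : Fin N → E3) (i : Fin N) (v : E3) :
    fderiv ℝ (trial N R) x (Pi.single i v)
      = (((∏ j ∈ Finset.univ.erase i, bump (R • x j)) * (R * fderiv ℝ bump (R • x i) v) : ℝ) : ℂ) := by
  have h1 : ∀ j : Fin N, HasFDerivAt (fun x : Fin N → E3 => bump (R • x j))
      ((fderiv ℝ bump (R • x j)).comp (R • ContinuousLinearMap.proj (R := ℝ) (φ := fun _ : Fin N => E3) j)) x := by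
    intro j
    have h2 : HasFDerivAt bump (fderiv ℝ bump (R • x j)) (R • x j) :=
      ((bump.contDiff (n := 1)).differentiable (by norm_num) _).hasFDerivAt
    have h3 : HasFDerivAt (fun x : Fin N → E3 => R • x j)
        (R • ContinuousLinearMap.proj (R := ℝ) (φ := fun _ : Fin N => E3) j) x :=
      (hasFDerivAt_apply j x).const_smul R
    exact HasFDerivAt.comp (g := bump) x h2 h3
  have h2 := HasFDerivAt.finsetProd (u := Finset.univ) (fun j _ => h1 j)
  have h3 : HasFDerivAt (fun t : ℝ => (t : ℂ)) Complex.ofRealCLM (∏ j, bump (R • x j)) :=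
    Complex.ofRealCLM.hasFDerivAt
  have h4 : HasFDerivAt (trial N R) (Complex.ofRealCLM.comp (∑ j : Fin N,
      (∏ l ∈ Finset.univ.erase j, bump (R • x l)) • ((fderiv ℝ bump (R • x j)).comp
        (R • ContinuousLinearMap.proj (R := ℝ) (φ := fun _ : Fin N => E3) j)))) x :=
    HasFDerivAt.comp (g := fun t : ℝ => (t : ℂ)) x h3 h2
  rw [h4.fderiv]
  simp only [ContinuousLinearMap.comp_apply, Complex.ofRealCLM_apply]
  congr 1
  rw [_root_.sum_apply, Finset.sum_eq_single i]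
  · simp [smul_eq_mul]
  · intro j _ hj
    simp [Pi.single_eq_of_ne hj]
  · intro h
    exact absurd (Finset.mem_univ i) h

lemma trial_kin (R : ℝ) (x : Fin N → E3) (i : Fin N) :
    kinE (trial N R) i x = R ^ 2 * ∏ j, (if j = i then qB (R • x j) else pB (R • x j)) := by
  unfold kinE
  have h1 : ∏ j, (if j = i then qB (R • x j) else pB (R • x j))
      = (∏ j ∈ Finset.univ.erase i, bump (R • x j)) ^ 2 * qB (R • x i) := by
    rw [← Finset.prod_erase_mul _ _ (Finset.mem_univ i)]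
    congr 1
    · rw [← Finset.prod_pow]
      apply Finset.prod_congr rfl
      intro j hj
      rw [if_neg (Finset.ne_of_mem_erase hj)]
      rfl
    · simp
  rw [h1]
  unfold qB
  rw [Finset.mul_sum, Finset.mul_sum]
  apply Finset.sum_congr rfl
  intro k _
  rw [trial_fderiv, Complex.norm_real, Real.norm_eq_abs, sq_abs]
  ring

lemma int_scale (f : E3 → ℝ) (R : ℝ) : ∫ y, f (R • y) = |(R ^ 3)⁻¹| * ∫ y, f y := by
  rw [Measure.integral_comp_smul, finrank_euclideanSpace_fin, smul_eq_mul]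

lemma pB_int : Integrable pB := by
  apply Continuous.integrable_of_hasCompactSupport
  · exact bump.continuous.pow 2
  · exact bump.hasCompactSupport.comp_left (g := fun t : ℝ => t ^ 2) (by simp)

lemma A1_pos : 0 < ∫ y, pB y := by
  rw [integral_pos_iff_support_of_nonneg (fun y => by unfold pB; positivity) pB_int]
  have h : Metric.ball (0 : E3) (1 / 4) ⊆ Function.support pB := by
    intro y hy
    rw [Function.mem_support]
    unfold pB
    rw [bump.one_of_mem_closedBall (Metric.ball_subset_closedBall hy)]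
    norm_num
  exact (Metric.measure_ball_pos volume (0 : E3) (by norm_num)).trans_le (measure_mono h)

lemma trial_mass (R : ℝ) : ∫ x, ‖trial N R x‖ ^ 2 = (|(R ^ 3)⁻¹| * ∫ y, pB y) ^ N := by
  simp_rw [trial_norm]
  rw [integral_fintype_prod_volume_eq_pow (fun y : E3 => pB (R • y)), int_scale, Fintype.card_fin]

lemma trial_kin_int (R : ℝ) (i : Fin N) : ∫ x, kinE (trial N R) i x
    = R ^ 2 * ((|(R ^ 3)⁻¹| * ∫ y, qB y) * (|(R ^ 3)⁻¹| * ∫ y, pB y) ^ (N - 1)) := by
  simp_rw [trial_kin]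
  rw [integral_const_mul]
  congr 1
  rw [integral_fintype_prod_volume_eq_prod (fun (j : Fin N) (y : E3) => if j = i then qB (R • y) else pB (R • y))]
  rw [← Finset.mul_prod_erase _ _ (Finset.mem_univ i)]
  congr 1
  · simp only [if_true]
    rw [int_scale]
  · rw [Finset.prod_congr rfl (g := fun _ => |(R ^ 3)⁻¹| * ∫ y, pB y)]
    · rw [Finset.prod_const, Finset.card_erase_of_mem (Finset.mem_univ i), Finset.card_univ,
        Fintype.card_fin]
    · intro j hj
      simp only [if_neg (Finset.ne_of_mem_erase hj)]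
      rw [int_scale]

def k0 : ℝ := (∫ y, qB y) / ∫ y, pB y

lemma k0_nonneg : 0 ≤ k0 := by
  unfold k0
  apply div_nonneg _ A1_pos.le
  exact integral_nonneg fun y => Finset.sum_nonneg fun k _ => by positivity

lemma trial_kin_integrable {R : ℝ} (hR : 1 ≤ R) (i : Fin N) : Integrable (kinE (trial N R) i) :=
  (kinE_cont ((trial_contDiff R).of_le (by exact_mod_cast le_top)) i).integrable_of_hasCompactSupport
    (kinE_supp (trial_compact hR) i)

lemma trial_grad_int {R : ℝ} (hR : 1 ≤ R) : ∫ x, gradSq (trial N R) x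
    = (N : ℝ) * (R ^ 2 * k0) * ∫ x, ‖trial N R x‖ ^ 2 := by
  have h1 : ∫ x, gradSq (trial N R) x = ∑ i : Fin N, ∫ x, kinE (trial N R) i x :=
    integral_finsetSum _ fun i _ => trial_kin_integrable hR i
  rw [h1]
  simp_rw [trial_kin_int]
  rw [Finset.sum_const, Finset.card_univ, Fintype.card_fin, nsmul_eq_mul, trial_mass]
  rcases Nat.eq_zero_or_pos N with rfl | hN
  · simp
  obtain ⟨n, rfl⟩ : ∃ n, N = n + 1 := ⟨N - 1, by omega⟩
  have h2 := A1_pos
  rw [Nat.add_sub_cancel, pow_succ (|(R ^ 3)⁻¹| * ∫ y, pB y) n]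
  unfold k0
  generalize (∫ y, pB y) = A at *
  generalize (∫ y, qB y) = B at *
  generalize |(R ^ 3)⁻¹| = κ at *
  generalize (κ * A) ^ n = z at *
  field_simp

end part13

section part14
open Classical in
def V0 (a b : E3) : ℝ :=
  if (1 ≤ ‖a‖ ∧ ‖a‖ ≤ 3) ∧ (1 ≤ ‖b‖ ∧ ‖b‖ ≤ 3) ∧ (1 ≤ ‖a - b‖ ∧ ‖a - b‖ ≤ 3) then 1 else 0

open Classical in
def W0 (w : ℝ) (y : E3) : ℝ := if ‖y‖ ≤ 1 then -w else 0

lemma V0_small {a b : E3} (h : ‖a‖ < 1) : V0 a b = 0 := by
  unfold V0
  rw [if_neg]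
  rintro ⟨⟨h1, _⟩, _⟩
  linarith

lemma V0_meas : Measurable (fun p : E3 × E3 => V0 p.1 p.2) := by
  unfold V0
  apply Measurable.ite _ measurable_const measurable_const
  have h1 : Continuous (fun p : E3 × E3 => ‖p.1‖) := continuous_fst.norm
  have h2 : Continuous (fun p : E3 × E3 => ‖p.2‖) := continuous_snd.norm
  have h3 : Continuous (fun p : E3 × E3 => ‖p.1 - p.2‖) := (continuous_fst.sub continuous_snd).norm
  have e : {p : E3 × E3 | (1 ≤ ‖p.1‖ ∧ ‖p.1‖ ≤ 3) ∧ (1 ≤ ‖p.2‖ ∧ ‖p.2‖ ≤ 3) ∧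
      (1 ≤ ‖p.1 - p.2‖ ∧ ‖p.1 - p.2‖ ≤ 3)} = ({p : E3 × E3 | 1 ≤ ‖p.1‖} ∩ {p : E3 × E3 | ‖p.1‖ ≤ 3}) ∩
      (({p : E3 × E3 | 1 ≤ ‖p.2‖} ∩ {p : E3 × E3 | ‖p.2‖ ≤ 3}) ∩
      ({p : E3 × E3 | 1 ≤ ‖p.1 - p.2‖} ∩ {p : E3 × E3 | ‖p.1 - p.2‖ ≤ 3})) := by
    ext p
    simp only [Set.mem_ofPred_eq, mem_inter_iff]
  rw [e]
  exact (((isClosed_le continuous_const h1).inter (isClosed_le h1 continuous_const)).inter
    (((isClosed_le continuous_const h2).inter (isClosed_le h2 continuous_const)).inter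
    ((isClosed_le continuous_const h3).inter (isClosed_le h3 continuous_const)))).measurableSet

lemma V0_ne : ¬ (fun p : E3 × E3 => V0 p.1 p.2) =ᵐ[volume] 0 := by
  intro h
  have h1 : Continuous (fun p : E3 × E3 => ‖p.1‖) := continuous_fst.norm
  have h2 : Continuous (fun p : E3 × E3 => ‖p.2‖) := continuous_snd.norm
  have h3 : Continuous (fun p : E3 × E3 => ‖p.1 - p.2‖) := (continuous_fst.sub continuous_snd).norm
  set U : Set (E3 × E3) := ({p : E3 × E3 | 1 < ‖p.1‖} ∩ {p : E3 × E3 | ‖p.1‖ < 3}) ∩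
      (({p : E3 × E3 | 1 < ‖p.2‖} ∩ {p : E3 × E3 | ‖p.2‖ < 3}) ∩
      ({p : E3 × E3 | 1 < ‖p.1 - p.2‖} ∩ {p : E3 × E3 | ‖p.1 - p.2‖ < 3})) with hU
  have hUo : IsOpen U := ((isOpen_lt continuous_const h1).inter (isOpen_lt h1 continuous_const)).inter
    (((isOpen_lt continuous_const h2).inter (isOpen_lt h2 continuous_const)).inter
    ((isOpen_lt continuous_const h3).inter (isOpen_lt h3 continuous_const)))
  have hne : U.Nonempty := by
    set v : E3 := EuclideanSpace.single 0 (5 / 4 : ℝ) with hv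
    have hvn : ‖v‖ = 5 / 4 := by
      rw [hv, PiLp.norm_single, Real.norm_eq_abs]; norm_num
    have hvv : ‖v - -v‖ = 5 / 2 := by
      rw [sub_neg_eq_add, ← two_smul ℝ v, norm_smul, hvn, Real.norm_eq_abs]; norm_num
    refine ⟨(v, -v), ?_⟩
    simp only [hU, mem_inter_iff, Set.mem_ofPred_eq, norm_neg, hvn, hvv]
    norm_num
  have hpos : 0 < volume U := hUo.measure_pos volume hne
  have hz : volume U = 0 := by
    apply measure_mono_null _ h
    intro p hp hp0
    simp only [hU, mem_inter_iff, Set.mem_ofPred_eq] at hp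
    have h4 : V0 p.1 p.2 = 1 := by
      unfold V0
      rw [if_pos ⟨⟨hp.1.1.le, hp.1.2.le⟩, ⟨hp.2.1.1.le, hp.2.1.2.le⟩, hp.2.2.1.le, hp.2.2.2.le⟩]
    have h5 : V0 p.1 p.2 = 0 := hp0
    rw [h4] at h5
    exact one_ne_zero h5
  rw [hz] at hpos
  exact lt_irrefl _ hpos

lemma V0_rot (x y z : E3) : V0 (x - y) (x - z) = V0 (y - x) (y - z) := by
  unfold V0
  have e1 : ‖x - y - (x - z)‖ = ‖y - z‖ := by rw [← norm_neg]; congr 1; abel
  have e2 : ‖y - x - (y - z)‖ = ‖x - z‖ := by rw [← norm_neg]; congr 1; abel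
  rw [e1, e2, norm_sub_rev x y]
  congr 1
  apply propext
  tauto

lemma V0_symm (x y : E3) : V0 x y = V0 y x := by
  unfold V0
  rw [norm_sub_rev x y]
  congr 1
  apply propext
  tauto

lemma admissible (w : ℝ) (hw : 0 ≤ w) : AdmissiblePair V0 (W0 w) where
  V_meas := V0_meas
  V_nonneg := fun x y => by unfold V0; split_ifs <;> norm_num
  V_bdd := ⟨1, fun x y => by unfold V0; split_ifs <;> norm_num⟩
  V_supp := by
    apply HasCompactSupport.intro (isCompact_closedBall (0 : E3 × E3) 3)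
    intro p hp
    unfold V0
    rw [if_neg]
    rintro ⟨⟨_, h1⟩, ⟨_, h2⟩, _⟩
    apply hp
    rw [mem_closedBall_zero_iff, Prod.norm_def]
    exact max_le h1 h2
  V_ne := V0_ne
  V_symm := V0_symm
  V_symm1 := V0_rot
  V_symm2 := fun x y z => by
    rw [V0_symm (y - x) (y - z), V0_rot y z x, V0_symm]
  W_meas := by
    unfold W0
    exact Measurable.ite (isClosed_le continuous_norm continuous_const).measurableSet
      measurable_const measurable_const
  W_nonpos := fun x => by unfold W0; split_ifs <;> linarith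
  W_even := fun x => by unfold W0; rw [norm_neg]
  W_bdd := ⟨w, fun x => by unfold W0; split_ifs <;> linarith⟩
  W_supp := by
    apply HasCompactSupport.intro (isCompact_closedBall (0 : E3) 1)
    intro y hy
    unfold W0
    rw [if_neg]
    intro h
    exact hy (by rw [mem_closedBall_zero_iff]; exact h)

variable {N : ℕ}

def cN (N : ℕ) : ℝ := ∑ i : Fin N, ∑ j : Fin N, (if i < j then (1 : ℝ) else 0)

lemma cN_eq (N : ℕ) : 2 * cN N = (N : ℝ) ^ 2 - N := by
  have h1 : ∑ i : Fin N, ∑ j : Fin N, (if j < i then (1 : ℝ) else 0) = cN N := by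
    rw [Finset.sum_comm]; rfl
  have h2 : ∑ i : Fin N, ∑ j : Fin N, (if i = j then (1 : ℝ) else 0) = N := by simp
  have h3 : ∑ i : Fin N, ∑ j : Fin N, ((if i < j then (1 : ℝ) else 0) + (if j < i then (1 : ℝ) else 0)
      + (if i = j then (1 : ℝ) else 0)) = (N : ℝ) ^ 2 := by
    have h4 : ∀ i j : Fin N, ((if i < j then (1 : ℝ) else 0) + (if j < i then (1 : ℝ) else 0)
      + (if i = j then (1 : ℝ) else 0)) = 1 := by
      intro i j
      rcases lt_trichotomy i j with h | h | h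
      · simp [h, h.ne, not_lt_of_gt h]
      · simp [h]
      · simp [h, h.ne', not_lt_of_gt h]
    simp_rw [h4]
    simp [pow_two]
  simp_rw [Finset.sum_add_distrib] at h3
  rw [h1, h2] at h3
  unfold cN at *
  linarith

lemma potential_trial (Vext : E3 → ℝ) {β w R : ℝ} (hR1 : (N : ℝ) ^ β ≤ R)
    (hR2 : (N : ℝ) ^ (1 / 2 : ℝ) ≤ R) {x : Fin N → E3} (hx : trial N R x ≠ 0) :
    potential Vext V0 (W0 w) β N x = ∑ i, Vext (x i) - ((N : ℝ) ^ (3 * β - 1) * w) * cN N := by
  have hR0 : 0 ≤ R := le_trans (Real.rpow_nonneg (Nat.cast_nonneg N) _) hR1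
  have hd : ∀ i j, R * ‖x i - x j‖ < 1 := by
    intro i j
    have h1 := trial_supp hx i
    have h2 := trial_supp hx j
    have h3 := norm_sub_le (R • x i) (R • x j)
    rw [← smul_sub, norm_smul, Real.norm_eq_abs, abs_of_nonneg hR0] at h3
    linarith
  have hd1 : ∀ i j, ‖(N : ℝ) ^ β • (x i - x j)‖ ≤ 1 := by
    intro i j
    rw [norm_smul, Real.norm_eq_abs, abs_of_nonneg (Real.rpow_nonneg (Nat.cast_nonneg N) _)]
    have := mul_le_mul_of_nonneg_right hR1 (norm_nonneg (x i - x j))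
    linarith [hd i j]
  have hd2 : ∀ i j, ‖(N : ℝ) ^ (1 / 2 : ℝ) • (x i - x j)‖ < 1 := by
    intro i j
    rw [norm_smul, Real.norm_eq_abs, abs_of_nonneg (Real.rpow_nonneg (Nat.cast_nonneg N) _)]
    have := mul_le_mul_of_nonneg_right hR2 (norm_nonneg (x i - x j))
    linarith [hd i j]
  have h3 : ∑ i, ∑ j, ∑ k, (if i < j ∧ j < k then
      (N : ℝ) * V0 ((N : ℝ) ^ (1 / 2 : ℝ) • (x i - x j)) ((N : ℝ) ^ (1 / 2 : ℝ) • (x i - x k)) else 0)
      = 0 := by
    apply Finset.sum_eq_zero; intro i _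
    apply Finset.sum_eq_zero; intro j _
    apply Finset.sum_eq_zero; intro k _
    rw [V0_small (hd2 i j), mul_zero, ite_self]
  have h2 : ∑ i, ∑ j, (if i < j then (N : ℝ) ^ (3 * β - 1) * W0 w ((N : ℝ) ^ β • (x i - x j)) else 0)
      = -(((N : ℝ) ^ (3 * β - 1) * w) * cN N) := by
    unfold cN
    rw [Finset.mul_sum, ← Finset.sum_neg_distrib]
    apply Finset.sum_congr rfl; intro i _
    rw [Finset.mul_sum, ← Finset.sum_neg_distrib]
    apply Finset.sum_congr rfl; intro j _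
    have : W0 w ((N : ℝ) ^ β • (x i - x j)) = -w := by
      unfold W0
      rw [if_pos (hd1 i j)]
    rw [this]
    split_ifs <;> ring
  unfold potential
  rw [h2, h3]
  ring

lemma potential_meas {Vext : E3 → ℝ} (hVext : Measurable Vext) {V : E3 → E3 → ℝ} {W : E3 → ℝ}
    (h : AdmissiblePair V W) (β : ℝ) : Measurable (potential Vext V W β N) := by
  unfold potential
  refine Measurable.add (Measurable.add ?_ ?_) ?_
  · apply Finset.measurable_fun_sum
    intro i _
    exact hVext.comp (measurable_pi_apply i)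
  · apply Finset.measurable_fun_sum; intro i _
    apply Finset.measurable_fun_sum; intro j _
    by_cases hij : i < j
    · simp only [hij, if_true]
      have h1 : Measurable (fun x : Fin N → E3 => (N : ℝ) ^ β • (x i - x j)) := by fun_prop
      exact (h.W_meas.comp h1).const_mul _
    · simp only [hij, if_false]
      exact measurable_const
  · apply Finset.measurable_fun_sum; intro i _
    apply Finset.measurable_fun_sum; intro j _
    apply Finset.measurable_fun_sum; intro k _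
    by_cases hij : i < j ∧ j < k
    · simp only [hij.1, hij.2, and_self, if_true]
      have h1 : Measurable (fun x : Fin N → E3 => (((N : ℝ) ^ (1 / 2 : ℝ) • (x i - x j),
        (N : ℝ) ^ (1 / 2 : ℝ) • (x i - x k)) : E3 × E3)) := by fun_prop
      exact (h.V_meas.comp h1).const_mul _
    · simp only [hij, if_false]
      exact measurable_const

theorem not_stable {Vext : E3 → ℝ} (hV : IsTrap Vext) {β : ℝ} (hβ : 1 / 3 ≤ β) :
    ¬ Stable Vext V0 (W0 (4 * (k0 + 1))) β := by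
  have hk0 := k0_nonneg
  set w : ℝ := 4 * (k0 + 1) with hw
  have hw0 : 0 ≤ w := by positivity
  have hadm := admissible w hw0
  rintro ⟨C, hC, hst⟩
  obtain ⟨M, hM⟩ := hV.locBdd 1
  have hM0 : 0 ≤ M := (abs_nonneg _).trans (hM 0 (by simp))
  obtain ⟨N, hN⟩ := exists_nat_gt (M + C + 2)
  have hN1r : (2 : ℝ) < N := by linarith
  have hN1 : 1 ≤ N := by
    have : 2 < N := by exact_mod_cast hN1r
    omega
  have hn1 : (1 : ℝ) ≤ N := by exact_mod_cast hN1
  have hn0 : (0 : ℝ) < N := by linarith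
  set R : ℝ := (N : ℝ) ^ (max β (1 / 2)) with hR
  have hR1 : (N : ℝ) ^ β ≤ R := Real.rpow_le_rpow_of_exponent_le hn1 (le_max_left _ _)
  have hR2 : (N : ℝ) ^ (1 / 2 : ℝ) ≤ R := Real.rpow_le_rpow_of_exponent_le hn1 (le_max_right _ _)
  have hR3 : 1 ≤ R := Real.one_le_rpow hn1 (le_trans (by norm_num) (le_max_right _ _))
  have hRsq : R ^ 2 ≤ (N : ℝ) ^ (3 * β) := by
    rw [hR, ← Real.rpow_natCast, ← Real.rpow_mul hn0.le]
    apply Real.rpow_le_rpow_of_exponent_le hn1
    push_cast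
    rcases le_total β (1 / 2) with h | h
    · rw [max_eq_right h]; linarith
    · rw [max_eq_left h]; linarith
  have hNβ : (N : ℝ) ≤ (N : ℝ) ^ (3 * β) := by
    calc (N : ℝ) = (N : ℝ) ^ (1 : ℝ) := (Real.rpow_one _).symm
      _ ≤ _ := Real.rpow_le_rpow_of_exponent_le hn1 (by linarith)
  set T : ℝ := (N : ℝ) ^ (3 * β) with hT
  have hT0 : 0 < T := Real.rpow_pos_of_pos hn0 _
  have hTN : (N : ℝ) ^ (3 * β - 1) = T / N := by
    rw [hT, Real.rpow_sub_one hn0.ne']
  set Ψ := trial N R with hΨ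
  have hs := hst N hN1 Ψ (trial_contDiff R) (trial_compact hR3) (trial_perm R)
  set Q : ℝ := ((N : ℝ) ^ (3 * β - 1) * w) * cN N with hQ
  have hcN : 0 ≤ cN N := Finset.sum_nonneg fun i _ => Finset.sum_nonneg fun j _ => by
    split_ifs <;> norm_num
  have hQ0 : 0 ≤ Q := by positivity
  have hext : ∀ x, Ψ x ≠ 0 → |∑ i, Vext (x i)| ≤ N * M := by
    intro x hx
    refine (Finset.abs_sum_le_sum_abs _ _).trans ?_
    have : ∀ i : Fin N, |Vext (x i)| ≤ M := by
      intro i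
      apply hM
      have h1 := trial_supp hx i
      rw [norm_smul, Real.norm_eq_abs, abs_of_pos (by linarith)] at h1
      nlinarith [norm_nonneg (x i)]
    refine (Finset.sum_le_sum fun i _ => this i).trans ?_
    simp
  have hpot_le : ∀ x, potential Vext V0 (W0 w) β N x * ‖Ψ x‖ ^ 2 ≤ (N * M - Q) * ‖Ψ x‖ ^ 2 := by
    intro x
    by_cases hx : Ψ x = 0
    · rw [hx]; simp
    · have h1 := potential_trial Vext hR1 hR2 hx (w := w)
      rw [h1]
      have h2 := (abs_le.1 (hext x hx)).2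
      gcongr
  have hpot_abs : ∀ x, |potential Vext V0 (W0 w) β N x * ‖Ψ x‖ ^ 2| ≤ (N * M + Q) * ‖Ψ x‖ ^ 2 := by
    intro x
    by_cases hx : Ψ x = 0
    · rw [hx]; simp
    · have h1 := potential_trial Vext hR1 hR2 hx (w := w)
      rw [abs_mul, abs_of_nonneg (show (0 : ℝ) ≤ ‖Ψ x‖ ^ 2 by positivity), h1]
      have h2 := abs_le.1 (hext x hx)
      gcongr
      rw [abs_le]
      constructor <;> linarith
  have hΨc : Continuous Ψ := (trial_contDiff R).continuous
  have hΨs : HasCompactSupport Ψ := trial_compact hR3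
  have hpi : Integrable (fun x => potential Vext V0 (W0 w) β N x * ‖Ψ x‖ ^ 2) := by
    refine integrable_dom hΨc hΨs (M := N * M + Q) ?_ hpot_abs
    exact (potential_meas hV.meas hadm β).mul (hΨc.norm.pow 2).measurable
  have hgi : Integrable (gradSq Ψ) := integrable_finsetSum _ fun i _ => trial_kin_integrable hR3 i
  have hE : energy Vext V0 (W0 w) β N Ψ
      ≤ (N * (R ^ 2 * k0) + (N * M - Q)) * ∫ x, ‖Ψ x‖ ^ 2 := by
    unfold energy
    rw [integral_add hgi hpi, trial_grad_int hR3, add_mul, ← integral_const_mul (N * M - Q)]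
    gcongr
    · exact (integrable_sq hΨc hΨs).const_mul _
    · exact hpot_le
  have hmass : 0 < ∫ x, ‖Ψ x‖ ^ 2 := by
    rw [hΨ, trial_mass]
    have := A1_pos
    positivity
  have h1 := hs.trans hE
  have h2 : -(C * N) ≤ N * (R ^ 2 * k0) + (N * M - Q) := le_of_mul_le_mul_right h1 hmass
  have h3 : Q = T * (2 * (k0 + 1)) * (N - 1) := by
    rw [hQ, hTN, hw]
    have := cN_eq N
    have h4 : cN N = N * (N - 1) / 2 := by linarith
    rw [h4]
    field_simp
    ring
  have h5 : R ^ 2 * k0 ≤ T * k0 := by gcongr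
  have h6 : T * (k0 + 1) * N ≤ Q := by
    rw [h3]
    have h7 : (N : ℝ) ≤ 2 * (N - 1) := by linarith
    have h8 : 0 ≤ T * (k0 + 1) := by positivity
    nlinarith
  have h9 : (N : ℝ) * (T * (k0 + 1)) ≤ N * (T * k0 + M + C) := by
    nlinarith
  have h10 := le_of_mul_le_mul_left h9 hn0
  nlinarith

end part14

section part15
variable {N : ℕ}

/-- Sanity check: the harmonic trap is a trap. -/
theorem harmonic_trap : IsTrap (fun x : E3 => ‖x‖ ^ 2) where
  meas := (continuous_norm.pow 2).measurable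
  locBdd := fun r => ⟨r ^ 2, fun x hx => by
    rw [abs_of_nonneg (by positivity)]
    gcongr⟩
  growth := ⟨1, one_pos, 2, two_pos, fun x => by
    rw [one_mul, Real.rpow_two]⟩

/-- Sanity check: admissible pairs with a nonzero pair interaction exist. -/
theorem exists_admissible : ∃ (V : E3 → E3 → ℝ) (W : E3 → ℝ), AdmissiblePair V W ∧ W 0 = -1 :=
  ⟨V0, W0 1, admissible 1 zero_le_one, by unfold W0; simp⟩

/-- Sanity check: the integral that defines the energy of a test function converges. -/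
theorem energy_integrable {Vext : E3 → ℝ} (hV : IsTrap Vext) {V : E3 → E3 → ℝ} {W : E3 → ℝ}
    (h : AdmissiblePair V W) (β : ℝ) {Ψ : (Fin N → E3) → ℂ} (hΨ : ContDiff ℝ ∞ Ψ)
    (hs : HasCompactSupport Ψ) :
    Integrable (fun x => gradSq Ψ x + potential Vext V W β N x * ‖Ψ x‖ ^ 2) := by
  have hΨ1 : ContDiff ℝ 1 Ψ := hΨ.of_le (by exact_mod_cast le_top)
  apply Integrable.add
  · exact integrable_finsetSum _ fun i _ => (kinE_cont hΨ1 i).integrable_of_hasCompactSupport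
      (kinE_supp hs i)
  obtain ⟨r, hr⟩ := hs.isCompact.isBounded.subset_closedBall (0 : Fin N → E3)
  obtain ⟨M, hM⟩ := hV.locBdd r
  obtain ⟨MV, hMV⟩ := h.V_bdd
  obtain ⟨MW, hMW⟩ := h.W_bdd
  have hMV0 : 0 ≤ MV := (h.V_nonneg 0 0).trans (hMV 0 0)
  have hMW0 : 0 ≤ MW := by linarith [hMW 0, h.W_nonpos 0]
  set a : ℝ := (N : ℝ) ^ (3 * β - 1) with ha
  have ha0 : 0 ≤ a := Real.rpow_nonneg (Nat.cast_nonneg N) _
  refine integrable_dom hΨ1.continuous hs
    (M := ∑ _i : Fin N, M + ∑ _i : Fin N, ∑ _j : Fin N, a * MW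
      + ∑ _i : Fin N, ∑ _j : Fin N, ∑ _k : Fin N, (N : ℝ) * MV) ?_ ?_
  · exact (potential_meas hV.meas h β).mul (hΨ1.continuous.norm.pow 2).measurable
  · intro x
    by_cases hx : Ψ x = 0
    · rw [hx]; simp
    rw [abs_mul, abs_of_nonneg (show (0 : ℝ) ≤ ‖Ψ x‖ ^ 2 by positivity)]
    gcongr
    unfold potential
    refine (abs_add_three _ _ _).trans (add_le_add (add_le_add ?_ ?_) ?_)
    · refine (Finset.abs_sum_le_sum_abs _ _).trans (Finset.sum_le_sum fun i _ => hM _ ?_)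
      have h1 : x ∈ Metric.closedBall (0 : Fin N → E3) r := hr (subset_tsupport _ hx)
      rw [mem_closedBall_zero_iff] at h1
      exact (norm_le_pi_norm x i).trans h1
    · refine (Finset.abs_sum_le_sum_abs _ _).trans (Finset.sum_le_sum fun i _ => ?_)
      refine (Finset.abs_sum_le_sum_abs _ _).trans (Finset.sum_le_sum fun j _ => ?_)
      split_ifs
      · rw [abs_mul, abs_of_nonneg ha0]
        gcongr
        rw [abs_le]
        exact ⟨hMW _, (h.W_nonpos _).trans hMW0⟩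
      · rw [abs_zero]; positivity
    · refine (Finset.abs_sum_le_sum_abs _ _).trans (Finset.sum_le_sum fun i _ => ?_)
      refine (Finset.abs_sum_le_sum_abs _ _).trans (Finset.sum_le_sum fun j _ => ?_)
      refine (Finset.abs_sum_le_sum_abs _ _).trans (Finset.sum_le_sum fun k _ => ?_)
      split_ifs
      · rw [abs_mul, abs_of_nonneg (Nat.cast_nonneg N), abs_of_nonneg (h.V_nonneg _ _)]
        gcongr
        exact hMV _ _
      · rw [abs_zero]; positivity

end part15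

/-- **Main theorem.** For every trap the set of exponents for which stability of the second kind
holds for all admissible pairs is the open interval `(0, 1/3)`. -/
theorem result (Vext : E3 → ℝ) (hV : IsTrap Vext) :
    {β : ℝ | 0 < β ∧ β ≤ 1 ∧ ∀ V W, AdmissiblePair V W → Stable Vext V W β} = Set.Ioo 0 (1 / 3) := by
  ext β
  simp only [Set.mem_ofPred_eq, Set.mem_Ioo]
  constructor
  · rintro ⟨h0, _, h⟩
    refine ⟨h0, ?_⟩
    by_contra hc
    push Not at hc
    exact not_stable hV hc (h _ _ (admissible _ (by have := k0_nonneg; positivity)))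
  · rintro ⟨h0, h1⟩
    refine ⟨h0, by linarith, fun V W hVW => stable_of_lt ?_ hVW h1⟩
    obtain ⟨c, hc, α, hα, h⟩ := hV.growth
    intro x
    exact le_trans (by positivity) (h x)

end

end Pool.Agent.Results.MP_a755a8_mp.StabilityThreshold
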